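import Mathlib
import Pool.Agent.K4H38.FP.Core
import Pool.Agent.H350R3.MG.Frob

/-!
Families of forms which are closed under linear substitutions and which span all forms: powers of
linear forms, and all forms.
-/

set_option autoImplicit false
set_option linter.unusedSectionVars false

namespace K4H38FR

open MvPolynomial H350MG Module K4H38FP

noncomputable section

/-- a family of forms, closed under a family of linear substitutions and spanning all forms -/
structure Fmy (K : Type) [Field K] [CharZero K] (σ : Type) [Fintype σ] [DecidableEq σ] where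
  Γ : Type
  φ : ℕ → (Γ → K) → MvPolynomial σ K
  hom : ∀ δ p, φ δ p ∈ Rj K σ δ
  poly : ∀ δ (ψ : MvPolynomial σ K →ₗ[K] K), H350MG.IsPoly (fun p : Γ → K => ψ (φ δ p))
  W : (σ → K) → (σ → K) → K → (Γ → K) → (Γ → K)
  W_zero : ∀ a w p, W a w 0 p = p
  W_pl : ∀ a w p y, Pl (fun t => W a w t p y)
  sc : (σ → K) → (σ → K) → Polynomial K
  sc_ne : ∀ a w, sc a w ≠ 0
  sb_W : ∀ a w t δ p, sb t a w (φ δ (W a w t p)) = ((sc a w).eval t) ^ δ • φ δ p
  span : ∀ δ (μ : MvPolynomial σ K →ₗ[K] K), (∀ p, μ (φ δ p) = 0) → ∀ F ∈ Rj K σ δ, μ F = 0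

variable {K : Type} [Field K] [CharZero K] {σ : Type} [Fintype σ] [DecidableEq σ]

lemma pl_aeval (g : σ → Polynomial (MvPolynomial σ K)) (μ : MvPolynomial σ K →ₗ[K] K)
    (F : MvPolynomial σ K) : Pl (fun t => μ (aeval (fun i => (g i).eval (C t)) F)) := by
  let Φ : MvPolynomial σ K →ₐ[K] Polynomial (MvPolynomial σ K) := aeval g
  have hΦ : ∀ (t : K) (G : MvPolynomial σ K),
      (Φ G).eval (C t) = aeval (fun i => (g i).eval (C t)) G := by
    intro t G
    induction G using MvPolynomial.induction_on with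
    | C c =>
      have e1 : Φ (C c) = Polynomial.C (C c) := by
        rw [← MvPolynomial.algebraMap_eq, AlgHom.commutes]
        rfl
      rw [e1, Polynomial.eval_C, ← MvPolynomial.algebraMap_eq, AlgHom.commutes]
    | add p q hp hq => rw [map_add, Polynomial.eval_add, hp, hq, map_add]
    | mul_X p i hp =>
      have e1 : Φ (X i) = g i := by simp [Φ]
      rw [map_mul, Polynomial.eval_mul, hp, map_mul, e1, aeval_X]
  refine ⟨∑ j ∈ Finset.range ((Φ F).natDegree + 1), Polynomial.monomial j (μ ((Φ F).coeff j)),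
    fun t => ?_⟩
  beta_reduce
  rw [← hΦ, Polynomial.eval_eq_sum_range (p := Φ F), Polynomial.eval_finsetSum, map_sum]
  refine Finset.sum_congr rfl fun j _ => ?_
  rw [Polynomial.eval_monomial, ← C_pow, mul_comm ((Φ F).coeff j), ← smul_eq_C_mul, map_smul,
    smul_eq_mul, mul_comm]

lemma sb_X (t : K) (a w : σ → K) (i : σ) :
    sb t a w (X i) = C (1 - t) * X i + C (t * a i) * lin w := by simp [sb]

lemma sb_lin (t : K) (a w v : σ → K) : sb t a w (lin v) = lin (mv t w a v) := by
  unfold lin
  rw [map_sum]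
  simp only [map_smul, sb_X, mv, add_smul, Finset.sum_add_distrib, smul_add]
  congr 1
  · refine Finset.sum_congr rfl fun i _ => ?_
    rw [smul_eq_C_mul, smul_eq_C_mul, C_mul]
    ring
  · unfold lin dt
    simp only [Finset.mul_sum, Finset.smul_sum, Finset.sum_smul]
    rw [Finset.sum_comm]
    refine Finset.sum_congr rfl fun i _ => Finset.sum_congr rfl fun j _ => ?_
    simp only [smul_eq_C_mul, C_mul]
    ring

lemma lin_smul' (c : K) (v : σ → K) : lin (c • v) = c • lin v := by
  unfold lin
  rw [Finset.smul_sum]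
  refine Finset.sum_congr rfl fun i _ => ?_
  rw [Pi.smul_apply, smul_eq_mul, mul_smul]

/-- the scalar factor -/
def sc0 (a w : σ → K) : Polynomial K :=
  (1 - Polynomial.X) * ((1 - Polynomial.X) + Polynomial.X * Polynomial.C (dt a w))

lemma sc0_eval (a w : σ → K) (t : K) : (sc0 a w).eval t = (1 - t) * ((1 - t) + t * dt a w) := by
  simp only [sc0, Polynomial.eval_add, Polynomial.eval_mul, Polynomial.eval_sub,
    Polynomial.eval_one, Polynomial.eval_X, Polynomial.eval_C]

lemma sc0_ne (a w : σ → K) : sc0 a w ≠ 0 := by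
  intro h
  have := congrArg (Polynomial.eval 0) h
  rw [sc0_eval] at this
  simp at this

/-- the family of the powers of the linear forms -/
def powF (K : Type) [Field K] [CharZero K] (σ : Type) [Fintype σ] [DecidableEq σ] : Fmy K σ where
  Γ := σ
  φ δ p := lin p ^ δ
  hom δ p := linpow_hom p δ
  poly δ ψ := by
    obtain ⟨p, hp⟩ := isPoly_linpow ψ δ
    exact ⟨p, hp⟩
  W a w t p := wv t w a p
  W_zero a w p := by
    funext i
    simp [wv]
  W_pl a w p y := by
    refine ⟨((1 - Polynomial.X) + Polynomial.X * Polynomial.C (dt a w)) * Polynomial.C (p y)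
        - Polynomial.X * Polynomial.C (dt a p) * Polynomial.C (w y), fun t => ?_⟩
    simp only [wv, Polynomial.eval_add, Polynomial.eval_mul, Polynomial.eval_sub,
      Polynomial.eval_one, Polynomial.eval_X, Polynomial.eval_C]
  sc a w := sc0 a w
  sc_ne a w := sc0_ne a w
  sb_W a w t δ p := by
    rw [map_pow, sb_lin, mv_wv, sc0_eval, lin_smul', smul_pow]
  span δ μ h F hF := funct_zero μ h hF

/-- the inverse substitution up to a factor -/
def wsb (t : K) (a w : σ → K) : MvPolynomial σ K →ₐ[K] MvPolynomial σ K :=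
  aeval fun i => C ((1 - t) + t * dt a w) * X i - C (t * a i) * lin w

lemma wsb_X (t : K) (a w : σ → K) (i : σ) :
    wsb t a w (X i) = C ((1 - t) + t * dt a w) * X i - C (t * a i) * lin w := by simp [wsb]

lemma wsb_hom {t : K} {a w : σ → K} {d : ℕ} {F : MvPolynomial σ K} (hF : F ∈ Rj K σ d) :
    wsb t a w F ∈ Rj K σ d := by
  have hF' : F.IsHomogeneous d := hF
  have h := hF'.aeval (S := K)
    (fun i => C ((1 - t) + t * dt a w) * X i - C (t * a i) * lin w) (n := 1) (by
    intro i
    refine IsHomogeneous.sub ?_ ?_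
    · have := (isHomogeneous_C σ ((1 - t) + t * dt a w)).mul (isHomogeneous_X K i)
      rwa [zero_add] at this
    · have := (isHomogeneous_C σ (t * a i)).mul (lin_hom w)
      rwa [zero_add] at this)
  rw [one_mul] at h
  exact h

lemma sb_wsb_X (t : K) (a w : σ → K) (i : σ) :
    sb t a w (wsb t a w (X i)) = C ((sc0 a w).eval t) * X i := by
  have h1 : (X i : MvPolynomial σ K) = lin (Pi.single i 1) := by
    unfold lin
    rw [Finset.sum_eq_single i]
    · rw [Pi.single_eq_same, one_smul]
    · intro j _ hj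
      rw [Pi.single_eq_of_ne hj, zero_smul]
    · intro h'; exact absurd (Finset.mem_univ _) h'
  have h2 : dt a (Pi.single i 1) = a i := by
    unfold dt
    rw [Finset.sum_eq_single i]
    · rw [Pi.single_eq_same, mul_one]
    · intro j _ hj
      rw [Pi.single_eq_of_ne hj, mul_zero]
    · intro h'; exact absurd (Finset.mem_univ _) h'
  have h3 : wsb t a w (X i) = lin (wv t w a (Pi.single i 1)) := by
    rw [wsb_X, h1]
    unfold wv lin
    simp only [h2, sub_smul, Finset.sum_sub_distrib]
    congr 1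
    · rw [Finset.mul_sum]
      refine Finset.sum_congr rfl fun j _ => ?_
      rw [mul_smul, smul_eq_C_mul, smul_eq_C_mul]
    · rw [Finset.mul_sum]
      refine Finset.sum_congr rfl fun j _ => ?_
      rw [mul_smul, smul_eq_C_mul, smul_eq_C_mul]
  rw [h3, sb_lin, mv_wv, sc0_eval, lin_smul', ← h1, smul_eq_C_mul]

lemma aeval_scale (c : K) {d : ℕ} {F : MvPolynomial σ K} (hF : F ∈ Rj K σ d) :
    aeval (fun i => C c * X i) F = c ^ d • F := by
  classical
  have hF' : F.IsHomogeneous d := hF
  conv_rhs => rw [F.as_sum, Finset.smul_sum]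
  rw [aeval_def, eval₂_eq']
  refine Finset.sum_congr rfl fun m hm => ?_
  have hm' : ∑ i, m i = d := by
    rw [← Finsupp.degree_eq_sum]
    by_contra hdeg
    exact mem_support_iff.1 hm (hF'.coeff_eq_zero hdeg)
  simp only [mul_pow]
  rw [Finset.prod_mul_distrib, Finset.prod_pow_eq_pow_sum, hm', MvPolynomial.algebraMap_eq,
    monomial_eq, Finsupp.prod_fintype _ _ (fun i => pow_zero _), smul_eq_C_mul, C_pow]
  ring

lemma sb_wsb (t : K) (a w : σ → K) {d : ℕ} {F : MvPolynomial σ K} (hF : F ∈ Rj K σ d) :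
    sb t a w (wsb t a w F) = ((sc0 a w).eval t) ^ d • F := by
  rw [← aeval_scale _ hF, ← AlgHom.comp_apply]
  refine congrArg (fun T : MvPolynomial σ K →ₐ[K] MvPolynomial σ K => T F) ?_
  refine MvPolynomial.algHom_ext fun i => ?_
  rw [AlgHom.comp_apply, sb_wsb_X, aeval_X]

/-- the form with given coefficients -/
def fo (δ : ℕ) (p : (σ →₀ ℕ) → K) : MvPolynomial σ K :=
  ∑ m : {m : σ →₀ ℕ // Finsupp.degree m = δ}, p m.1 • monomial m.1 1

lemma fo_hom (δ : ℕ) (p : (σ →₀ ℕ) → K) : fo δ p ∈ Rj K σ δ :=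
  Submodule.sum_mem _ fun m _ => Submodule.smul_mem _ _ (isHomogeneous_monomial _ m.2)

lemma coeff_fo (δ : ℕ) (p : (σ →₀ ℕ) → K) (u : σ →₀ ℕ) :
    coeff u (fo δ p) = if Finsupp.degree u = δ then p u else 0 := by
  classical
  unfold fo
  rw [coeff_sum]
  split_ifs with hu
  · rw [Finset.sum_eq_single (⟨u, hu⟩ : {m : σ →₀ ℕ // Finsupp.degree m = δ})]
    · rw [coeff_smul, coeff_monomial, if_pos rfl, smul_eq_mul, mul_one]
    · intro m _ hm
      rw [coeff_smul, coeff_monomial, if_neg, smul_zero]
      intro h; exact hm (Subtype.ext h)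
    · intro h; exact absurd (Finset.mem_univ _) h
  · refine Finset.sum_eq_zero fun m _ => ?_
    rw [coeff_smul, coeff_monomial, if_neg, smul_zero]
    rintro rfl; exact hu m.2

lemma fo_coeff {δ : ℕ} {F : MvPolynomial σ K} (hF : F ∈ Rj K σ δ) :
    fo δ (fun u => coeff u F) = F := by
  ext u
  rw [coeff_fo]
  split_ifs with hu
  · rfl
  · have hF' : F.IsHomogeneous δ := hF
    exact (hF'.coeff_eq_zero hu).symm

/-- the family of all forms -/
def allF (K : Type) [Field K] [CharZero K] (σ : Type) [Fintype σ] [DecidableEq σ] : Fmy K σ where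
  Γ := σ →₀ ℕ
  φ δ p := fo δ p
  hom δ p := fo_hom δ p
  poly δ ψ := by
    have h1 : (fun p : (σ →₀ ℕ) → K => ψ (fo δ p)) = fun p =>
        ∑ m : {m : σ →₀ ℕ // Finsupp.degree m = δ}, p m.1 * ψ (monomial m.1 1) := by
      funext p
      unfold fo
      rw [map_sum]
      refine Finset.sum_congr rfl fun m _ => ?_
      rw [map_smul, smul_eq_mul]
    rw [h1]
    exact H350MG.IsPoly.sum _ fun m _ => (H350MG.IsPoly.coord _).mul (H350MG.IsPoly.const _)
  W a w t p := fun u => coeff u (wsb t a w (fo (Finsupp.degree u) p))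
  W_zero a w p := by
    funext u
    have h1 : wsb (0 : K) a w = AlgHom.id K _ := by
      refine MvPolynomial.algHom_ext fun i => ?_
      rw [wsb_X]
      simp
    rw [h1, AlgHom.id_apply, coeff_fo, if_pos rfl]
  W_pl a w p u := by
    have h := pl_aeval (fun i => ((1 - Polynomial.X) + Polynomial.X * Polynomial.C (C (dt a w))) *
      Polynomial.C (X i) - Polynomial.X * Polynomial.C (C (a i)) * Polynomial.C (lin w))
      (lcoeff K u) (fo (Finsupp.degree u) p)
    obtain ⟨q, hq⟩ := h
    refine ⟨q, fun t => ?_⟩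
    rw [hq t]
    beta_reduce
    rw [lcoeff_apply]
    congr 2
    unfold wsb
    refine congrArg (fun g : σ → MvPolynomial σ K => aeval g) ?_
    funext i
    simp only [Polynomial.eval_add, Polynomial.eval_mul, Polynomial.eval_sub,
      Polynomial.eval_one, Polynomial.eval_X, Polynomial.eval_C, C_add, C_sub, C_mul, C_1]
  sc a w := sc0 a w
  sc_ne a w := sc0_ne a w
  sb_W a w t δ p := by
    have h1 : fo δ (fun u => coeff u (wsb t a w (fo (Finsupp.degree u) p))) =
        wsb t a w (fo δ p) := by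
      ext u
      rw [coeff_fo]
      split_ifs with hu
      · rw [hu]
      · have h2 : (wsb t a w (fo δ p)).IsHomogeneous δ := wsb_hom (fo_hom δ p)
        exact (h2.coeff_eq_zero hu).symm
    rw [h1, sb_wsb t a w (fo_hom δ p)]
  span δ μ h F hF := by
    have := h (fun u => coeff u F)
    rwa [fo_coeff hF] at this

end

end K4H38FR
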