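import Mathlib
import Pool.Agent.K4H38.FR.Fmy

/-!
The ideals generated by generic members of a family of forms, and their generic dimensions, as
functions of the multiset of the degrees.
-/

set_option autoImplicit false
set_option linter.unusedSectionVars false

namespace K4H38FR

open MvPolynomial H350MG Module K4H38FP

noncomputable section

variable {K : Type} [Field K] [CharZero K] {σ : Type} [Fintype σ] [DecidableEq σ] (𝓕 : Fmy K σ)

/-- the parameters of the form with index `a` -/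
def pa (P : (ℕ × ℕ) × 𝓕.Γ → K) (a : ℕ × ℕ) : 𝓕.Γ → K := fun y => P (a, y)

/-- the form with index `a`; its degree is the first component of the index -/
def fm (P : (ℕ × ℕ) × 𝓕.Γ → K) (a : ℕ × ℕ) : MvPolynomial σ K := 𝓕.φ a.1 (pa 𝓕 P a)

lemma fm_hom (P : (ℕ × ℕ) × 𝓕.Γ → K) (a : ℕ × ℕ) : fm 𝓕 P a ∈ Rj K σ a.1 := 𝓕.hom _ _

/-- the degree `k` part of the ideal generated by the forms with the given parameters and degrees -/
def JM (k : ℕ) (c : Multiset ((𝓕.Γ → K) × ℕ)) : Submodule K (MvPolynomial σ K) :=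
  (c.map fun x => Jt (𝓕.φ x.2 x.1, x.2) k).sup

lemma JM_le (k : ℕ) (c : Multiset ((𝓕.Γ → K) × ℕ)) : JM 𝓕 k c ≤ Rj K σ k := by
  unfold JM
  rw [Multiset.sup_le]
  intro N hN
  obtain ⟨x, _, rfl⟩ := Multiset.mem_map.1 hN
  exact Jt_le (𝓕.hom _ _) k

instance finJM (k : ℕ) (c : Multiset ((𝓕.Γ → K) × ℕ)) : FiniteDimensional K (JM 𝓕 k c) :=
  Submodule.finiteDimensional_of_le (JM_le 𝓕 k c)

/-- the least codimension for the degrees in `s` -/
def qv (k : ℕ) (s : Multiset ℕ) : ℕ :=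
  sInf {x | ∃ c : Multiset ((𝓕.Γ → K) × ℕ), c.map Prod.snd = s ∧
    finrank K (Rj K σ k) - finrank K (JM 𝓕 k c) = x}

lemma qv_nonempty (k : ℕ) (s : Multiset ℕ) :
    {x | ∃ c : Multiset ((𝓕.Γ → K) × ℕ), c.map Prod.snd = s ∧
      finrank K (Rj K σ k) - finrank K (JM 𝓕 k c) = x}.Nonempty := by
  refine ⟨_, s.map fun m => ((0 : 𝓕.Γ → K), m), ?_, rfl⟩
  rw [Multiset.map_map]
  simp

lemma qv_spec (k : ℕ) (s : Multiset ℕ) : ∃ c : Multiset ((𝓕.Γ → K) × ℕ),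
    c.map Prod.snd = s ∧ finrank K (Rj K σ k) - finrank K (JM 𝓕 k c) = qv 𝓕 k s :=
  Nat.sInf_mem (qv_nonempty 𝓕 k s)

lemma qv_le {k : ℕ} {s : Multiset ℕ} (c : Multiset ((𝓕.Γ → K) × ℕ)) (h : c.map Prod.snd = s) :
    qv 𝓕 k s ≤ finrank K (Rj K σ k) - finrank K (JM 𝓕 k c) :=
  Nat.sInf_le ⟨c, h, rfl⟩

/-- the configuration -/
def cf (P : (ℕ × ℕ) × 𝓕.Γ → K) (A : Finset (ℕ × ℕ)) : Multiset ((𝓕.Γ → K) × ℕ) :=
  A.val.map fun a => (pa 𝓕 P a, a.1)

lemma cf_snd (P : (ℕ × ℕ) × 𝓕.Γ → K) (A : Finset (ℕ × ℕ)) :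
    (cf 𝓕 P A).map Prod.snd = A.val.map Prod.fst := by
  unfold cf
  rw [Multiset.map_map]
  rfl

lemma exists_cf (A : Finset (ℕ × ℕ)) : ∀ c : Multiset ((𝓕.Γ → K) × ℕ),
    c.map Prod.snd = A.val.map Prod.fst → ∃ P : (ℕ × ℕ) × 𝓕.Γ → K, cf 𝓕 P A = c := by
  classical
  intro c hc
  suffices h : ∃ f : ℕ × ℕ → 𝓕.Γ → K, (A.val.map fun a => (f a, a.1)) = c by
    obtain ⟨f, hf⟩ := h
    exact ⟨fun y => f y.1 y.2, hf⟩
  revert c
  induction A using Finset.induction_on with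
  | empty =>
    intro c hc
    refine ⟨fun _ => 0, ?_⟩
    have : c = 0 := by simpa using hc
    rw [this]
    rfl
  | insert a A ha ih =>
    intro c hc
    rw [Finset.insert_val_of_notMem ha, Multiset.map_cons] at hc
    have hmem : a.1 ∈ c.map Prod.snd := by rw [hc]; exact Multiset.mem_cons_self _ _
    obtain ⟨x, hx, hxa⟩ := Multiset.mem_map.1 hmem
    obtain ⟨c', rfl⟩ := Multiset.exists_cons_of_mem hx
    rw [Multiset.map_cons, hxa, Multiset.cons_inj_right] at hc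
    obtain ⟨f, hf⟩ := ih c' hc
    refine ⟨Function.update f a x.1, ?_⟩
    rw [Finset.insert_val_of_notMem ha, Multiset.map_cons, Function.update_self]
    have h1 : (A.val.map fun b => (Function.update f a x.1 b, b.1)) =
        A.val.map fun b => (f b, b.1) := by
      refine Multiset.map_congr rfl fun b hb => ?_
      rw [Function.update_of_ne]
      rintro rfl
      exact ha hb
    rw [h1, hf, ← hxa]

/-- the degree `k` part of the ideal generated by the forms with indices in `A` -/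
def JA (k : ℕ) (P : (ℕ × ℕ) × 𝓕.Γ → K) (A : Finset (ℕ × ℕ)) : Submodule K (MvPolynomial σ K) :=
  JM 𝓕 k (cf 𝓕 P A)

lemma JA_le (k : ℕ) (P : (ℕ × ℕ) × 𝓕.Γ → K) (A : Finset (ℕ × ℕ)) : JA 𝓕 k P A ≤ Rj K σ k :=
  JM_le 𝓕 k _

instance finJA (k : ℕ) (P : (ℕ × ℕ) × 𝓕.Γ → K) (A : Finset (ℕ × ℕ)) :
    FiniteDimensional K (JA 𝓕 k P A) := finJM 𝓕 k _

lemma JA_le_iff {k : ℕ} {P : (ℕ × ℕ) × 𝓕.Γ → K} {A : Finset (ℕ × ℕ)}
    {N : Submodule K (MvPolynomial σ K)} :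
    JA 𝓕 k P A ≤ N ↔ ∀ a ∈ A, Jt (fm 𝓕 P a, a.1) k ≤ N := by
  unfold JA JM cf
  rw [Multiset.sup_le, Multiset.map_map]
  constructor
  · intro h a ha
    exact h _ (Multiset.mem_map.2 ⟨a, ha, rfl⟩)
  · intro h M hM
    obtain ⟨a, ha, rfl⟩ := Multiset.mem_map.1 hM
    exact h a ha

lemma Jt_le_JA {k : ℕ} {P : (ℕ × ℕ) × 𝓕.Γ → K} {A : Finset (ℕ × ℕ)} {a : ℕ × ℕ} (ha : a ∈ A) :
    Jt (fm 𝓕 P a, a.1) k ≤ JA 𝓕 k P A := (JA_le_iff 𝓕).1 le_rfl a ha

lemma JA_mono {k : ℕ} {P : (ℕ × ℕ) × 𝓕.Γ → K} {A B : Finset (ℕ × ℕ)} (h : A ⊆ B) :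
    JA 𝓕 k P A ≤ JA 𝓕 k P B :=
  (JA_le_iff 𝓕).2 fun _ ha => Jt_le_JA 𝓕 (h ha)

lemma JA_insert {k : ℕ} {P : (ℕ × ℕ) × 𝓕.Γ → K} {A : Finset (ℕ × ℕ)} {a : ℕ × ℕ} (ha : a ∉ A) :
    JA 𝓕 k P (insert a A) = JA 𝓕 k P A ⊔ Jt (fm 𝓕 P a, a.1) k := by
  unfold JA JM cf
  rw [Finset.insert_val_of_notMem ha, Multiset.map_cons, Multiset.map_cons, Multiset.sup_cons,
    sup_comm]
  rfl

lemma JA_congr {k : ℕ} {P P' : (ℕ × ℕ) × 𝓕.Γ → K} {A : Finset (ℕ × ℕ)}
    (h : ∀ a ∈ A, pa 𝓕 P' a = pa 𝓕 P a) : JA 𝓕 k P' A = JA 𝓕 k P A := by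
  unfold JA cf
  congr 1
  refine Multiset.map_congr rfl fun a ha => ?_
  rw [h a ha]

lemma isPoly_pa {f : (𝓕.Γ → K) → K} (hf : H350MG.IsPoly f) (a : ℕ × ℕ) :
    H350MG.IsPoly (fun P : (ℕ × ℕ) × 𝓕.Γ → K => f (pa 𝓕 P a)) := by
  obtain ⟨p, hp⟩ := hf
  refine ⟨rename (fun y => (a, y)) p, fun P => ?_⟩
  rw [eval_rename, hp]
  rfl

/-- semicontinuity, with an additional vector depending on the parameters -/
lemma gen_le (k : ℕ) (A : Finset (ℕ × ℕ)) (G : ((ℕ × ℕ) × 𝓕.Γ → K) → MvPolynomial σ K)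
    (hG : ∀ ψ : MvPolynomial σ K →ₗ[K] K, H350MG.IsPoly fun P => ψ (G P))
    (P0 : (ℕ × ℕ) × 𝓕.Γ → K) :
    Gen K (fun P : (ℕ × ℕ) × 𝓕.Γ → K => finrank K ↥(JA 𝓕 k P0 A ⊔ Submodule.span K {G P0}) ≤
      finrank K ↥(JA 𝓕 k P A ⊔ Submodule.span K {G P})) := by
  classical
  let V := (a : {a // a ∈ A}) → Rj K σ (k - a.1.1)
  let L : ((ℕ × ℕ) × 𝓕.Γ → K) → (V × K) →ₗ[K] MvPolynomial σ K := fun P =>
    (∑ a : {a // a ∈ A}, if a.1.1 ≤ k then
      (LinearMap.mulLeft K (fm 𝓕 P a.1)) ∘ₗ (Rj K σ (k - a.1.1)).subtype ∘ₗ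
        (LinearMap.proj a) ∘ₗ (LinearMap.fst K V K) else 0) +
      (LinearMap.toSpanSingleton K _ (G P)) ∘ₗ (LinearMap.snd K V K)
  have hLx : ∀ P (x : V × K), L P x = (∑ a : {a // a ∈ A}, if a.1.1 ≤ k then
      fm 𝓕 P a.1 * (x.1 a : MvPolynomial σ K) else 0) + x.2 • G P := by
    intro P x
    simp only [L, LinearMap.add_apply, LinearMap.sum_apply]
    congr 1
    refine Finset.sum_congr rfl fun a _ => ?_
    split_ifs <;> rfl
  have hL : ∀ (x : V × K) (ψ : MvPolynomial σ K →ₗ[K] K),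
      H350MG.IsPoly (fun P => ψ (L P x)) := by
    intro x ψ
    have h1 : (fun P => ψ (L P x)) = fun P : (ℕ × ℕ) × 𝓕.Γ → K =>
        ∑ a : Option {a // a ∈ A}, (a.elim (x.2 * ψ (G P)) fun a =>
          if a.1.1 ≤ k then ψ (fm 𝓕 P a.1 * (x.1 a : MvPolynomial σ K)) else 0) := by
      funext P
      rw [hLx, map_add, map_sum, map_smul, smul_eq_mul, Fintype.sum_option, add_comm]
      congr 1
      refine Finset.sum_congr rfl fun a _ => ?_
      change ψ (if a.1.1 ≤ k then fm 𝓕 P a.1 * (x.1 a : MvPolynomial σ K) else 0) =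
        if a.1.1 ≤ k then ψ (fm 𝓕 P a.1 * (x.1 a : MvPolynomial σ K)) else 0
      split_ifs
      · rfl
      · exact map_zero ψ
    rw [h1]
    refine H350MG.IsPoly.sum _ fun a _ => ?_
    rcases a with _ | a
    · exact (H350MG.IsPoly.const x.2).mul (hG ψ)
    · change H350MG.IsPoly fun P : (ℕ × ℕ) × 𝓕.Γ → K =>
        if a.1.1 ≤ k then ψ (fm 𝓕 P a.1 * (x.1 a : MvPolynomial σ K)) else 0
      by_cases h : a.1.1 ≤ k
      · simp only [h, if_true]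
        have h2 := isPoly_pa 𝓕 (𝓕.poly a.1.1 (ψ ∘ₗ LinearMap.mulRight K (x.1 a : MvPolynomial σ K)))
          a.1
        exact h2
      · simp only [h, if_false]
        exact H350MG.IsPoly.const 0
  obtain ⟨Φ, h0, hΦ⟩ := generic_ker L hL P0
  have hrange : ∀ P, LinearMap.range (L P) = JA 𝓕 k P A ⊔ Submodule.span K {G P} := by
    intro P
    refine le_antisymm ?_ (sup_le ?_ ?_)
    · rintro _ ⟨x, rfl⟩
      rw [hLx]
      refine Submodule.add_mem_sup (Submodule.sum_mem _ fun a _ => ?_)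
        (Submodule.smul_mem _ _ (Submodule.mem_span_singleton_self _))
      split_ifs with h
      · refine Jt_le_JA 𝓕 a.2 ?_
        unfold Jt
        rw [if_pos h]
        exact ⟨x.1 a, (x.1 a).2, rfl⟩
      · exact Submodule.zero_mem _
    · rw [JA_le_iff]
      intro a ha
      unfold Jt
      split_ifs with h
      · rintro _ ⟨y, hy, rfl⟩
        refine ⟨(Pi.single (⟨a, ha⟩ : {a // a ∈ A}) ⟨y, hy⟩, 0), ?_⟩
        rw [hLx, Finset.sum_eq_single (⟨a, ha⟩ : {a // a ∈ A}), zero_smul, add_zero]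
        · rw [if_pos h]
          dsimp only
          rw [Pi.single_eq_same]
          rfl
        · intro b _ hb
          split_ifs
          · dsimp only
            rw [Pi.single_eq_of_ne hb]
            simp
          · rfl
        · intro h'; exact absurd (Finset.mem_univ _) h'
      · exact bot_le
    · rw [Submodule.span_le, Set.singleton_subset_iff]
      refine ⟨(0, 1), ?_⟩
      rw [hLx, one_smul, Finset.sum_eq_zero, zero_add]
      intro a _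
      split_ifs
      · change fm 𝓕 P a.1 * ((0 : Rj K σ (k - a.1.1)) : MvPolynomial σ K) = 0
        rw [Submodule.coe_zero, mul_zero]
      · rfl
  refine ⟨Φ, h0, fun P hP => ?_⟩
  have h1 := hΦ P hP
  have h2 := LinearMap.finrank_range_add_finrank_ker (L P)
  have h3 := LinearMap.finrank_range_add_finrank_ker (L P0)
  beta_reduce
  rw [← hrange, ← hrange]
  omega

lemma gen_J (k : ℕ) (A : Finset (ℕ × ℕ)) :
    Gen K (fun P : (ℕ × ℕ) × 𝓕.Γ → K =>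
      finrank K (JA 𝓕 k P A) + qv 𝓕 k (A.val.map Prod.fst) = finrank K (Rj K σ k)) := by
  obtain ⟨c, hc, hc2⟩ := qv_spec 𝓕 k (A.val.map Prod.fst)
  obtain ⟨P0, rfl⟩ := exists_cf 𝓕 A c hc
  refine (gen_le 𝓕 k A (fun _ => 0) (fun ψ => by
    simp only [map_zero]
    exact H350MG.IsPoly.const 0) P0).mono fun P hP => ?_
  rw [Submodule.span_zero_singleton, sup_bot_eq, sup_bot_eq] at hP
  have h1 := qv_le 𝓕 (k := k) (cf 𝓕 P A) (cf_snd 𝓕 P A)
  have h2 : finrank K (JA 𝓕 k P A) ≤ finrank K (Rj K σ k) := Submodule.finrank_mono (JA_le 𝓕 k P A)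
  have h3 : finrank K (Rj K σ k) - finrank K (JA 𝓕 k P0 A) = qv 𝓕 k (A.val.map Prod.fst) := hc2
  have h4 : qv 𝓕 k (A.val.map Prod.fst) ≤ finrank K (Rj K σ k) - finrank K (JA 𝓕 k P A) := h1
  omega

/-- a vector outside of the ideal once is outside of it generically -/
lemma gen_notMem (k : ℕ) (A : Finset (ℕ × ℕ)) (G : ((ℕ × ℕ) × 𝓕.Γ → K) → MvPolynomial σ K)
    (hG : ∀ ψ : MvPolynomial σ K →ₗ[K] K, H350MG.IsPoly fun P => ψ (G P))
    (P0 : (ℕ × ℕ) × 𝓕.Γ → K)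
    (h0 : finrank K (JA 𝓕 k P0 A) + qv 𝓕 k (A.val.map Prod.fst) = finrank K (Rj K σ k))
    (h1 : G P0 ∉ JA 𝓕 k P0 A) :
    Gen K (fun P : (ℕ × ℕ) × 𝓕.Γ → K => G P ∉ JA 𝓕 k P A) := by
  refine ((gen_le 𝓕 k A G hG P0).and (gen_J 𝓕 k A)).mono ?_
  rintro P ⟨h2, h3⟩ h4
  have h5 : JA 𝓕 k P A ⊔ Submodule.span K {G P} = JA 𝓕 k P A := by
    rw [sup_eq_left, Submodule.span_le, Set.singleton_subset_iff]
    exact h4
  have h6 : JA 𝓕 k P0 A < JA 𝓕 k P0 A ⊔ Submodule.span K {G P0} := by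
    refine lt_of_le_of_ne le_sup_left fun h => h1 ?_
    rw [h]
    exact Submodule.mem_sup_right (Submodule.mem_span_singleton_self _)
  have h7 := Submodule.finrank_lt_finrank_of_lt h6
  rw [h5] at h2
  omega

end

end K4H38FR
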