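import Mathlib
import Pool.Agent.K4H38.FR.JSp

/-!
Colon spaces of ideals generated by generic members of a family.
-/

set_option autoImplicit false
set_option linter.unusedSectionVars false

namespace K4H38FR

open MvPolynomial H350MG Module K4H38FP

noncomputable section

variable {K : Type} [Field K] [CharZero K] {σ : Type} [Fintype σ] [DecidableEq σ] (𝓕 : Fmy K σ)

lemma gen_fm_ne [Nonempty σ] (a : ℕ × ℕ) :
    Gen K (fun P : (ℕ × ℕ) × 𝓕.Γ → K => fm 𝓕 P a ≠ 0) := by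
  classical
  obtain ⟨i⟩ := (inferInstance : Nonempty σ)
  obtain ⟨q, hq⟩ := 𝓕.poly a.1 (lcoeff K (Finsupp.single i a.1))
  have hq0 : q ≠ 0 := by
    rintro rfl
    have h1 := 𝓕.span a.1 (lcoeff K (Finsupp.single i a.1)) (fun p => by
      have := hq p
      rw [map_zero] at this
      exact this.symm) (monomial (Finsupp.single i a.1) 1)
      (isHomogeneous_monomial _ (by simp))
    rw [lcoeff_apply, coeff_monomial, if_pos rfl] at h1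
    exact one_ne_zero h1
  refine ⟨rename (fun y => (a, y)) q, ?_, fun P hP h => hP ?_⟩
  · intro h
    apply hq0
    apply rename_injective (fun y => (a, y)) (fun y z hyz => (Prod.mk.inj hyz).2)
    rw [h, map_zero]
  · rw [eval_rename]
    change eval (pa 𝓕 P a) q = 0
    rw [hq]
    have h' : 𝓕.φ a.1 (pa 𝓕 P a) = 0 := h
    beta_reduce
    rw [h', map_zero]

/-- the forms of degree `k - h.1` which multiply the form `h` into the ideal -/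
def KH (k : ℕ) (P : (ℕ × ℕ) × 𝓕.Γ → K) (h : ℕ × ℕ) (A : Finset (ℕ × ℕ)) :
    Submodule K (MvPolynomial σ K) :=
  Rj K σ (k - h.1) ⊓ (JA 𝓕 k P A).comap (LinearMap.mulLeft K (fm 𝓕 P h))

lemma mem_KH {k : ℕ} {P : (ℕ × ℕ) × 𝓕.Γ → K} {h : ℕ × ℕ} {A : Finset (ℕ × ℕ)}
    {c : MvPolynomial σ K} :
    c ∈ KH 𝓕 k P h A ↔ c ∈ Rj K σ (k - h.1) ∧ fm 𝓕 P h * c ∈ JA 𝓕 k P A := Iff.rfl

lemma KH_le {k : ℕ} {P : (ℕ × ℕ) × 𝓕.Γ → K} {h : ℕ × ℕ} {A : Finset (ℕ × ℕ)} :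
    KH 𝓕 k P h A ≤ Rj K σ (k - h.1) := inf_le_left

instance finKH (k : ℕ) (P : (ℕ × ℕ) × 𝓕.Γ → K) (h : ℕ × ℕ) (A : Finset (ℕ × ℕ)) :
    FiniteDimensional K (KH 𝓕 k P h A) :=
  Submodule.finiteDimensional_of_le (KH_le 𝓕)

lemma KH_mono {k : ℕ} {P : (ℕ × ℕ) × 𝓕.Γ → K} {h : ℕ × ℕ} {A B : Finset (ℕ × ℕ)} (hAB : A ⊆ B) :
    KH 𝓕 k P h A ≤ KH 𝓕 k P h B :=
  fun _ hc => ⟨hc.1, JA_mono 𝓕 hAB hc.2⟩

lemma KH_congr {k : ℕ} {P P' : (ℕ × ℕ) × 𝓕.Γ → K} {h : ℕ × ℕ} {A : Finset (ℕ × ℕ)}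
    (hh : pa 𝓕 P' h = pa 𝓕 P h) (hA : ∀ a ∈ A, pa 𝓕 P' a = pa 𝓕 P a) :
    KH 𝓕 k P' h A = KH 𝓕 k P h A := by
  unfold KH fm
  rw [JA_congr 𝓕 hA, hh]

lemma KH_rank {k : ℕ} {P : (ℕ × ℕ) × 𝓕.Γ → K} {h : ℕ × ℕ} {A : Finset (ℕ × ℕ)} (hk : h.1 ≤ k)
    (hh : h ∉ A) (h0 : fm 𝓕 P h ≠ 0) :
    finrank K (JA 𝓕 k P (insert h A)) + finrank K (KH 𝓕 k P h A) =
      finrank K (JA 𝓕 k P A) + finrank K (Rj K σ (k - h.1)) := by
  have hinj : Function.Injective (LinearMap.mulLeft K (fm 𝓕 P h)) :=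
    fun a b hab => mul_left_cancel₀ h0 hab
  have : FiniteDimensional K (Jt (fm 𝓕 P h, h.1) k) :=
    Submodule.finiteDimensional_of_le (Jt_le (fm_hom 𝓕 P h) k)
  have h1 := Submodule.finrank_sup_add_finrank_inf_eq (JA 𝓕 k P A) (Jt (fm 𝓕 P h, h.1) k)
  have h2 : finrank K (Jt (fm 𝓕 P h, h.1) k) = finrank K (Rj K σ (k - h.1)) := by
    unfold Jt
    rw [if_pos hk]
    exact (LinearEquiv.finrank_eq (Submodule.equivMapOfInjective _ hinj _)).symm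
  have h3 : JA 𝓕 k P A ⊓ Jt (fm 𝓕 P h, h.1) k =
      (KH 𝓕 k P h A).map (LinearMap.mulLeft K (fm 𝓕 P h)) := by
    unfold Jt
    rw [if_pos hk]
    ext G
    constructor
    · rintro ⟨h4, c, hc, rfl⟩
      exact ⟨c, ⟨hc, h4⟩, rfl⟩
    · rintro ⟨c, ⟨hc, h4⟩, rfl⟩
      exact ⟨h4, c, hc, rfl⟩
  have h4 : finrank K (JA 𝓕 k P A ⊓ Jt (fm 𝓕 P h, h.1) k : Submodule K (MvPolynomial σ K)) =
      finrank K (KH 𝓕 k P h A) := by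
    rw [h3]
    exact (LinearEquiv.finrank_eq (Submodule.equivMapOfInjective _ hinj _)).symm
  rw [JA_insert 𝓕 hh]
  omega

lemma fm_mem_KH {k : ℕ} {P : (ℕ × ℕ) × 𝓕.Γ → K} {h a : ℕ × ℕ} {A : Finset (ℕ × ℕ)} (hk : h.1 ≤ k)
    (ha : a ∈ A) (ha1 : a.1 = k - h.1) : fm 𝓕 P a ∈ KH 𝓕 k P h A := by
  refine ⟨?_, ?_⟩
  · rw [← ha1]
    exact fm_hom 𝓕 P a
  · refine Jt_le_JA 𝓕 ha ?_
    change fm 𝓕 P h * fm 𝓕 P a ∈ _
    unfold Jt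
    rw [if_pos (by change a.1 ≤ k; omega)]
    refine ⟨fm 𝓕 P h, ?_, ?_⟩
    · have := fm_hom 𝓕 P h
      rwa [show h.1 = k - a.1 by omega] at this
    · rw [LinearMap.mulLeft_apply, mul_comm]

/-- the generic dimension of the colon space -/
def kd (k δ : ℕ) (s : Multiset ℕ) : ℕ :=
  finrank K (Rj K σ (k - δ)) + qv 𝓕 k (δ ::ₘ s) - qv 𝓕 k s

lemma exists_fresh (m : ℕ) (A : Finset (ℕ × ℕ)) : ∃ j : ℕ, (m, j) ∉ A := by
  by_contra hcon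
  push Not at hcon
  have hinj : Function.Injective (fun j : ℕ => (m, j)) := fun y z hyz => by
    simpa using hyz
  exact (Set.infinite_of_injective_forall_mem hinj hcon) A.finite_toSet

lemma map_insert {A : Finset (ℕ × ℕ)} {a : ℕ × ℕ} (ha : a ∉ A) :
    (insert a A).val.map Prod.fst = a.1 ::ₘ A.val.map Prod.fst := by
  rw [Finset.insert_val_of_notMem ha, Multiset.map_cons]

lemma gen_KH' [Nonempty σ] {k : ℕ} {h : ℕ × ℕ} {A : Finset (ℕ × ℕ)} (hk : h.1 ≤ k) (hh : h ∉ A) :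
    Gen K (fun P : (ℕ × ℕ) × 𝓕.Γ → K => finrank K (KH 𝓕 k P h A) + qv 𝓕 k (A.val.map Prod.fst) =
      finrank K (Rj K σ (k - h.1)) + qv 𝓕 k (h.1 ::ₘ A.val.map Prod.fst)) := by
  refine (((gen_J 𝓕 k A).and (gen_J 𝓕 k (insert h A))).and (gen_fm_ne 𝓕 h)).mono ?_
  rintro P ⟨⟨h1, h2⟩, h3⟩
  have h4 := KH_rank 𝓕 hk hh h3
  rw [map_insert hh] at h2
  omega

lemma kd_add [Nonempty σ] {k δ : ℕ} (hk : δ ≤ k) (s : Multiset ℕ) :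
    kd 𝓕 k δ s + qv 𝓕 k s = finrank K (Rj K σ (k - δ)) + qv 𝓕 k (δ ::ₘ s) := by
  obtain ⟨A, rfl⟩ := exists_fin s
  obtain ⟨j, hj⟩ := exists_fresh δ A
  obtain ⟨P, hP⟩ := (gen_KH' 𝓕 (h := (δ, j)) hk hj).exists
  unfold kd
  change _ = finrank K (Rj K σ (k - δ)) + qv 𝓕 k (δ ::ₘ A.val.map Prod.fst) at hP
  omega

lemma gen_KH [Nonempty σ] {k : ℕ} {h : ℕ × ℕ} {A : Finset (ℕ × ℕ)} (hk : h.1 ≤ k) (hh : h ∉ A) :
    Gen K (fun P : (ℕ × ℕ) × 𝓕.Γ → K =>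
      finrank K (KH 𝓕 k P h A) = kd 𝓕 k h.1 (A.val.map Prod.fst)) := by
  refine (gen_KH' 𝓕 hk hh).mono fun P hP => ?_
  have := kd_add 𝓕 hk (A.val.map Prod.fst)
  omega

lemma kd_le [Nonempty σ] {k δ : ℕ} (hk : δ ≤ k) (s : Multiset ℕ) :
    kd 𝓕 k δ s ≤ finrank K (Rj K σ (k - δ)) := by
  obtain ⟨A, rfl⟩ := exists_fin s
  obtain ⟨j, hj⟩ := exists_fresh δ A
  obtain ⟨P, hP⟩ := (gen_KH 𝓕 (h := (δ, j)) hk hj).exists
  change _ = kd 𝓕 k δ _ at hP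
  rw [← hP]
  exact Submodule.finrank_mono (KH_le 𝓕)

lemma kd_mono [Nonempty σ] {k δ : ℕ} (hk : δ ≤ k) (s : Multiset ℕ) (t : ℕ) :
    kd 𝓕 k δ s ≤ kd 𝓕 k δ (t ::ₘ s) := by
  classical
  obtain ⟨A, rfl⟩ := exists_fin s
  obtain ⟨i, hi⟩ := exists_fresh t A
  obtain ⟨j, hj⟩ := exists_fresh δ (insert (t, i) A)
  obtain ⟨P, hP1, hP2⟩ := ((gen_KH 𝓕 (h := (δ, j)) hk hj).and
    (gen_KH 𝓕 (h := (δ, j)) hk (fun h => hj (Finset.mem_insert_of_mem h)))).exists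
  rw [map_insert hi] at hP1
  change _ = kd 𝓕 k δ _ at hP1
  change _ = kd 𝓕 k δ _ at hP2
  rw [← hP1, ← hP2]
  exact Submodule.finrank_mono (KH_mono 𝓕 (Finset.subset_insert _ _))

lemma isPoly_fm_mul (h a : ℕ × ℕ) (ψ : MvPolynomial σ K →ₗ[K] K) :
    H350MG.IsPoly fun P : (ℕ × ℕ) × 𝓕.Γ → K => ψ (fm 𝓕 P h * fm 𝓕 P a) := by
  have h1 : (fun P : (ℕ × ℕ) × 𝓕.Γ → K => ψ (fm 𝓕 P h * fm 𝓕 P a)) = fun P =>
      ∑ m : {m : σ →₀ ℕ // Finsupp.degree m = a.1},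
        (lcoeff K m.1 (𝓕.φ a.1 (pa 𝓕 P a))) *
          (ψ ∘ₗ LinearMap.mulRight K (monomial m.1 1)) (𝓕.φ h.1 (pa 𝓕 P h)) := by
    funext P
    have h2 : fm 𝓕 P a = ∑ m : {m : σ →₀ ℕ // Finsupp.degree m = a.1},
        coeff m.1 (fm 𝓕 P a) • monomial m.1 1 := by
      have := fo_coeff (fm_hom 𝓕 P a)
      unfold fo at this
      exact this.symm
    rw [h2, Finset.mul_sum, map_sum]
    refine Finset.sum_congr rfl fun m _ => ?_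
    rw [mul_smul_comm, map_smul, smul_eq_mul, lcoeff_apply]
    rfl
  rw [h1]
  exact H350MG.IsPoly.sum _ fun m _ =>
    (isPoly_pa 𝓕 (𝓕.poly a.1 (lcoeff K m.1)) a).mul (isPoly_pa 𝓕 (𝓕.poly h.1 _) h)

/-- a further generic form of degree `k - h.1` is not in the colon space -/
lemma gen_fm_notMem [Nonempty σ] {k : ℕ} {h a : ℕ × ℕ} {A : Finset (ℕ × ℕ)} (hk : h.1 ≤ k)
    (hh : h ∉ A) (ha : a ∉ A) (hah : a ≠ h) (ha1 : a.1 = k - h.1)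
    (hlt : kd 𝓕 k h.1 (A.val.map Prod.fst) < finrank K (Rj K σ (k - h.1))) :
    Gen K (fun P : (ℕ × ℕ) × 𝓕.Γ → K => fm 𝓕 P a ∉ KH 𝓕 k P h A) := by
  classical
  obtain ⟨P0, h1, h2⟩ := ((gen_J 𝓕 k A).and (gen_KH 𝓕 hk hh)).exists
  have hne : ∃ F ∈ Rj K σ (k - h.1), F ∉ KH 𝓕 k P0 h A := by
    by_contra hcon
    push Not at hcon
    have h3 : Rj K σ (k - h.1) ≤ KH 𝓕 k P0 h A := hcon
    have := Submodule.finrank_mono h3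
    omega
  obtain ⟨F, hF, hF2⟩ := hne
  obtain ⟨μ, hμ1, hμ2⟩ := Submodule.exists_le_ker_of_notMem hF2
  obtain ⟨p, hp⟩ : ∃ p, μ (𝓕.φ (k - h.1) p) ≠ 0 := by
    by_contra hcon
    push Not at hcon
    exact hμ1 (𝓕.span _ μ hcon F hF)
  let P1 : (ℕ × ℕ) × 𝓕.Γ → K := fun y => if y.1 = a then p y.2 else P0 y
  have e1 : pa 𝓕 P1 a = p := by
    funext y
    simp [pa, P1]
  have e2 : ∀ b, b ≠ a → pa 𝓕 P1 b = pa 𝓕 P0 b := by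
    intro b hb
    funext y
    simp [pa, P1, hb]
  have e3 : JA 𝓕 k P1 A = JA 𝓕 k P0 A :=
    JA_congr 𝓕 fun b hb => e2 b (fun h' => ha (h' ▸ hb))
  have e4 : fm 𝓕 P1 a = 𝓕.φ (k - h.1) p := by
    unfold fm
    rw [e1, ha1]
  have e5 : fm 𝓕 P1 h = fm 𝓕 P0 h := by
    unfold fm
    rw [e2 h hah.symm]
  have h5 : fm 𝓕 P1 a ∉ KH 𝓕 k P0 h A := by
    intro h6
    have := hμ2 h6
    rw [LinearMap.mem_ker, e4] at this
    exact hp this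
  have h6 : fm 𝓕 P1 h * fm 𝓕 P1 a ∉ JA 𝓕 k P1 A := by
    intro h7
    apply h5
    rw [mem_KH]
    refine ⟨?_, ?_⟩
    · rw [← ha1]
      exact fm_hom 𝓕 P1 a
    · rw [← e5, ← e3]
      exact h7
  refine (gen_notMem 𝓕 k A (fun P => fm 𝓕 P h * fm 𝓕 P a) (isPoly_fm_mul 𝓕 h a) P1 ?_ h6).mono
    fun P hP h7 => hP h7.2
  rw [e3]
  exact h1

lemma kd_strict [Nonempty σ] {k δ : ℕ} (hk : δ ≤ k) (s : Multiset ℕ)
    (hlt : kd 𝓕 k δ s < finrank K (Rj K σ (k - δ))) :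
    kd 𝓕 k δ s + 1 ≤ kd 𝓕 k δ ((k - δ) ::ₘ s) := by
  classical
  obtain ⟨A, rfl⟩ := exists_fin s
  obtain ⟨i, hi⟩ := exists_fresh (k - δ) A
  obtain ⟨j, hj⟩ := exists_fresh δ (insert (k - δ, i) A)
  have hjA : (δ, j) ∉ A := fun h => hj (Finset.mem_insert_of_mem h)
  have hne : (k - δ, i) ≠ (δ, j) := fun h => hj (h ▸ Finset.mem_insert_self _ _)
  obtain ⟨P, ⟨hP1, hP2⟩, hP3⟩ := (((gen_KH 𝓕 (h := (δ, j)) hk hj).and
    (gen_KH 𝓕 (h := (δ, j)) hk hjA)).and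
    (gen_fm_notMem 𝓕 (h := (δ, j)) (a := (k - δ, i)) hk hjA hi hne rfl hlt)).exists
  rw [map_insert hi] at hP1
  change _ = kd 𝓕 k δ _ at hP1
  change _ = kd 𝓕 k δ _ at hP2
  rw [← hP1, ← hP2]
  refine Submodule.finrank_lt_finrank_of_lt (lt_of_le_of_ne
    (KH_mono 𝓕 (Finset.subset_insert _ _)) fun h => hP3 ?_)
  rw [h]
  exact fm_mem_KH 𝓕 hk (Finset.mem_insert_self _ _) rfl

end

end K4H38FR
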