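import Mathlib
import Pool.Agent.K4H38.FR.KSp

/-!
Exchange of generic forms in colon spaces.
-/

set_option autoImplicit false
set_option linter.unusedSectionVars false

namespace K4H38FR

open MvPolynomial H350MG Module K4H38FP

noncomputable section

section LinAlg

variable {K V : Type} [Field K] [AddCommGroup V] [Module K V]

/-- intersecting with a hyperplane -/
lemma inf_hyper {A H L : Submodule K V} [FiniteDimensional K L] (hA : A ≤ L) (hH : H ≤ L)
    (hr : finrank K H + 1 = finrank K L) {f : V} (hf : f ∈ A) (hf' : f ∉ H) :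
    finrank K (A ⊓ H : Submodule K V) + 1 = finrank K A := by
  have : FiniteDimensional K A := Submodule.finiteDimensional_of_le hA
  have : FiniteDimensional K H := Submodule.finiteDimensional_of_le hH
  have h1 := Submodule.finrank_sup_add_finrank_inf_eq A H
  have h2 : H < A ⊔ H := lt_of_le_of_ne le_sup_right fun h => hf' (by
    rw [h]; exact Submodule.mem_sup_left hf)
  have h3 := Submodule.finrank_lt_finrank_of_lt h2
  have h4 : finrank K (A ⊔ H : Submodule K V) ≤ finrank K L :=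
    Submodule.finrank_mono (sup_le hA hH)
  omega

/-- intersecting with independent hyperplanes -/
lemma inf_hypers {ι : Type} [DecidableEq ι] {L : Submodule K V} [FiniteDimensional K L]
    (H : ι → Submodule K V) (f : ι → V) (B : Finset ι) (hH : ∀ b ∈ B, H b ≤ L)
    (hr : ∀ b ∈ B, finrank K (H b) + 1 = finrank K L) (hfL : ∀ b ∈ B, f b ∈ L)
    (hf : ∀ b ∈ B, f b ∉ H b) (hf' : ∀ b ∈ B, ∀ c ∈ B, b ≠ c → f b ∈ H c) :
    finrank K (L ⊓ B.inf H : Submodule K V) + B.card = finrank K L := by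
  induction B using Finset.induction_on with
  | empty => rw [Finset.inf_empty, inf_top_eq, Finset.card_empty, add_zero]
  | insert b B hb ih =>
    have h1 := ih (fun c hc => hH c (Finset.mem_insert_of_mem hc))
      (fun c hc => hr c (Finset.mem_insert_of_mem hc))
      (fun c hc => hfL c (Finset.mem_insert_of_mem hc))
      (fun c hc => hf c (Finset.mem_insert_of_mem hc))
      (fun c hc e he hce => hf' c (Finset.mem_insert_of_mem hc) e (Finset.mem_insert_of_mem he) hce)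
    have hbb := Finset.mem_insert_self b B
    have hmem : f b ∈ (L ⊓ B.inf H : Submodule K V) := by
      refine ⟨hfL b hbb, ?_⟩
      have : ∀ C : Finset ι, (∀ c ∈ C, f b ∈ H c) → f b ∈ C.inf H := by
        intro C
        induction C using Finset.induction_on with
        | empty => intro _; simp
        | insert c C hc ih' =>
          intro h
          rw [Finset.inf_insert]
          exact ⟨h c (Finset.mem_insert_self _ _), ih' fun e he =>
            h e (Finset.mem_insert_of_mem he)⟩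
      exact this B fun c hc => hf' b hbb c (Finset.mem_insert_of_mem hc)
        (fun h => hb (h ▸ hc))
    have h2 := inf_hyper (inf_le_left : (L ⊓ B.inf H : Submodule K V) ≤ L) (hH b hbb) (hr b hbb)
      hmem (hf b hbb)
    have h3 : (L ⊓ (insert b B).inf H : Submodule K V) = (L ⊓ B.inf H) ⊓ H b := by
      rw [Finset.inf_insert, inf_assoc, inf_comm (H b)]
    rw [h3, Finset.card_insert_of_notMem hb]
    omega

/-- three spaces of the same dimension with pairwise intersections of codimension one, the third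
one not contained in the sum of the others -/
lemma sunflower {K1 K2 K3 : Submodule K V} [FiniteDimensional K K1] [FiniteDimensional K K2]
    [FiniteDimensional K K3]
    (h13 : finrank K (K1 ⊓ K3 : Submodule K V) + 1 = finrank K K3)
    (h23 : finrank K (K2 ⊓ K3 : Submodule K V) + 1 = finrank K K3)
    (h12 : finrank K (K1 ⊓ K2 : Submodule K V) + 1 = finrank K K3)
    (h : ¬ K3 ≤ K1 ⊔ K2) : K2 ⊓ K1 = K2 ⊓ K3 := by
  have e1 : (K1 ⊓ K3 : Submodule K V) = K2 ⊓ K3 := by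
    by_contra hne
    apply h
    have h1 : (K1 ⊓ K3) ⊔ (K2 ⊓ K3) ≤ K3 := sup_le inf_le_right inf_le_right
    have h2 : (K1 ⊓ K3 : Submodule K V) < (K1 ⊓ K3) ⊔ (K2 ⊓ K3) := by
      refine lt_of_le_of_ne le_sup_left fun h3 => hne ?_
      have h4 : (K2 ⊓ K3 : Submodule K V) ≤ K1 ⊓ K3 := by
        rw [h3]; exact le_sup_right
      exact (Submodule.eq_of_le_of_finrank_eq h4 (by omega)).symm
    have : FiniteDimensional K ((K1 ⊓ K3) ⊔ (K2 ⊓ K3) : Submodule K V) :=
      Submodule.finiteDimensional_of_le h1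
    have h3 := Submodule.finrank_lt_finrank_of_lt h2
    have h4 : (K1 ⊓ K3) ⊔ (K2 ⊓ K3) = K3 := by
      refine Submodule.eq_of_le_of_finrank_le h1 ?_
      omega
    rw [← h4]
    exact sup_le_sup inf_le_left inf_le_left
  have h1 : (K2 ⊓ K3 : Submodule K V) ≤ K2 ⊓ K1 :=
    le_inf inf_le_left (e1 ▸ inf_le_left)
  refine (Submodule.eq_of_le_of_finrank_eq h1 ?_).symm
  rw [inf_comm K2 K1]
  omega

end LinAlg

variable {K : Type} [Field K] [CharZero K] {σ : Type} [Fintype σ] [DecidableEq σ] (𝓕 : Fmy K σ)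

/-- the excess of the colon space over the forms which are trivially contained in it -/
def ex (k δ : ℕ) (s : Multiset ℕ) : ℤ := (kd 𝓕 k δ s : ℤ) - (s.count (k - δ) : ℤ)

/-- the common part of the colon spaces of the ideals with one form of degree `k - h.1` removed -/
def PP (k : ℕ) (P : (ℕ × ℕ) × 𝓕.Γ → K) (h : ℕ × ℕ) (A : Finset (ℕ × ℕ)) :
    Submodule K (MvPolynomial σ K) :=
  KH 𝓕 k P h A ⊓ (A.filter fun b => b.1 = k - h.1).inf fun b => KH 𝓕 k P h (A.erase b)

lemma PP_le (k : ℕ) (P : (ℕ × ℕ) × 𝓕.Γ → K) (h : ℕ × ℕ) (A : Finset (ℕ × ℕ)) :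
    PP 𝓕 k P h A ≤ KH 𝓕 k P h A := inf_le_left

lemma PP_congr {k : ℕ} {P P' : (ℕ × ℕ) × 𝓕.Γ → K} {h : ℕ × ℕ} {A : Finset (ℕ × ℕ)}
    (hh : pa 𝓕 P' h = pa 𝓕 P h) (hA : ∀ a ∈ A, pa 𝓕 P' a = pa 𝓕 P a) :
    PP 𝓕 k P' h A = PP 𝓕 k P h A := by
  unfold PP
  rw [KH_congr 𝓕 hh hA]
  congr 1
  refine Finset.inf_congr rfl fun b _ => ?_
  exact KH_congr 𝓕 hh fun a ha => hA a (Finset.mem_of_mem_erase ha)

lemma card_filter_count (A : Finset (ℕ × ℕ)) (j : ℕ) :
    (A.filter fun b => b.1 = j).card = (A.val.map Prod.fst).count j := by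
  rw [Multiset.count_map]
  have : (A.filter fun b => b.1 = j).card = (A.val.filter fun b => j = b.1).card := by
    rw [← Finset.filter_val]
    change (A.filter fun b => b.1 = j).val.card = _
    congr 2
    refine Finset.filter_congr fun b _ => eq_comm
  rw [this]

lemma Gen.ball {Γ : Type} {ι : Type} [DecidableEq ι] (B : Finset ι) {Q : ι → (Γ → K) → Prop}
    (h : ∀ b ∈ B, Gen K (Q b)) : Gen K (fun P => ∀ b ∈ B, Q b P) := by
  induction B using Finset.induction_on with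
  | empty => exact Gen.of_forall fun _ b hb => absurd hb (Finset.notMem_empty b)
  | insert b B hb ih =>
    refine ((h b (Finset.mem_insert_self _ _)).and
      (ih fun c hc => h c (Finset.mem_insert_of_mem hc))).mono fun P hP c hc => ?_
    rw [Finset.mem_insert] at hc
    rcases hc with rfl | hc
    · exact hP.1
    · exact hP.2 c hc

lemma erase_type {A : Finset (ℕ × ℕ)} {b : ℕ × ℕ} (hb : b ∈ A) :
    A.val.map Prod.fst = b.1 ::ₘ (A.erase b).val.map Prod.fst := by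
  rw [← map_insert (Finset.notMem_erase b A), Finset.insert_erase hb]

lemma mem_PP {k : ℕ} {P : (ℕ × ℕ) × 𝓕.Γ → K} {h : ℕ × ℕ} {A : Finset (ℕ × ℕ)}
    {x : MvPolynomial σ K} : x ∈ PP 𝓕 k P h A ↔ x ∈ KH 𝓕 k P h A ∧
      ∀ b ∈ A, b.1 = k - h.1 → x ∈ KH 𝓕 k P h (A.erase b) := by
  unfold PP
  rw [Submodule.mem_inf]
  refine and_congr_right fun _ => ?_
  have : ∀ C : Finset (ℕ × ℕ), (x ∈ C.inf fun b => KH 𝓕 k P h (A.erase b)) ↔
      ∀ b ∈ C, x ∈ KH 𝓕 k P h (A.erase b) := by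
    intro C
    induction C using Finset.induction_on with
    | empty => simp
    | insert c C hc ih =>
      rw [Finset.inf_insert, Submodule.mem_inf, ih, Finset.forall_mem_insert]
  rw [this]
  constructor
  · intro h1 b hb hb1
    exact h1 b (Finset.mem_filter.2 ⟨hb, hb1⟩)
  · intro h1 b hb
    exact h1 b (Finset.mem_filter.1 hb).1 (Finset.mem_filter.1 hb).2

variable [Nonempty σ]

/-- the generic dimension of `PP`, with a form of degree `k - h.1` -/
lemma gen_PP2 {k : ℕ} {h : ℕ × ℕ} {A : Finset (ℕ × ℕ)} {s : Multiset ℕ} (hk : h.1 ≤ k)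
    (hh : h ∉ A) (hA : A.val.map Prod.fst = (k - h.1) ::ₘ s)
    (hst : kd 𝓕 k h.1 ((k - h.1) ::ₘ s) = kd 𝓕 k h.1 s + 1)
    (hlt : kd 𝓕 k h.1 s < finrank K (Rj K σ (k - h.1))) :
    Gen K (fun P : (ℕ × ℕ) × 𝓕.Γ → K => (finrank K (PP 𝓕 k P h A) : ℤ) = ex 𝓕 k h.1 s) := by
  classical
  have hty : ∀ b ∈ A.filter (fun b => b.1 = k - h.1), (A.erase b).val.map Prod.fst = s := by
    intro b hb
    rw [Finset.mem_filter] at hb
    have := erase_type hb.1
    rw [hA, hb.2, Multiset.cons_inj_right] at this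
    exact this.symm
  have g1 := Gen.ball (Γ := (ℕ × ℕ) × 𝓕.Γ) (K := K) (A.filter fun b => b.1 = k - h.1)
    (Q := fun b P => finrank K (KH 𝓕 k P h (A.erase b)) = kd 𝓕 k h.1 s) (fun b hb => by
      have := gen_KH 𝓕 hk (fun h' => hh (Finset.mem_of_mem_erase h') : h ∉ A.erase b)
      rwa [hty b hb] at this)
  have g2 := Gen.ball (Γ := (ℕ × ℕ) × 𝓕.Γ) (K := K) (A.filter fun b => b.1 = k - h.1)
    (Q := fun b P => fm 𝓕 P b ∉ KH 𝓕 k P h (A.erase b)) (fun b hb => by
      refine gen_fm_notMem 𝓕 hk (fun h' => hh (Finset.mem_of_mem_erase h'))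
        (Finset.notMem_erase b A) (fun h' => hh (h' ▸ (Finset.mem_filter.1 hb).1))
        (Finset.mem_filter.1 hb).2 ?_
      rw [hty b hb]
      exact hlt)
  refine ((g1.and g2).and (gen_KH 𝓕 hk hh)).mono ?_
  rintro P ⟨⟨h1, h2⟩, h3⟩
  rw [hA, hst] at h3
  have h4 := inf_hypers (L := KH 𝓕 k P h A) (fun b => KH 𝓕 k P h (A.erase b)) (fm 𝓕 P)
    (A.filter fun b => b.1 = k - h.1) (fun b _ => KH_mono 𝓕 (Finset.erase_subset b A))
    (fun b hb => by rw [h1 b hb, h3])
    (fun b hb => fm_mem_KH 𝓕 hk (Finset.mem_filter.1 hb).1 (Finset.mem_filter.1 hb).2) h2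
    (fun b hb c hc hbc => fm_mem_KH 𝓕 hk (Finset.mem_erase.2 ⟨hbc, (Finset.mem_filter.1 hb).1⟩)
      (Finset.mem_filter.1 hb).2)
  rw [card_filter_count, hA, Multiset.count_cons_self, h3] at h4
  have h5 : finrank K (PP 𝓕 k P h A) = finrank K
    (KH 𝓕 k P h A ⊓ (A.filter fun b => b.1 = k - h.1).inf
      (fun b => KH 𝓕 k P h (A.erase b)) : Submodule K (MvPolynomial σ K)) := rfl
  rw [← h5] at h4
  unfold ex
  omega

/-- exchange, no form of degree `k - h.1` -/
lemma exch1 {k : ℕ} {h a a' : ℕ × ℕ} {Θ : Finset (ℕ × ℕ)} {s : Multiset ℕ} (hk : h.1 ≤ k)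
    (hh : h ∉ Θ) (ha : a ∉ Θ) (ha' : a' ∉ Θ) (hne : a ≠ a') (hah : a ≠ h) (hah' : a' ≠ h)
    (hdeg : a'.1 = a.1) (hA : (insert a Θ).val.map Prod.fst = s) (hs : k - h.1 ∉ s)
    (hst : kd 𝓕 k h.1 (a.1 ::ₘ s) = kd 𝓕 k h.1 s) :
    Gen K (fun P : (ℕ × ℕ) × 𝓕.Γ → K => PP 𝓕 k P h (insert a Θ) = PP 𝓕 k P h (insert a' Θ)) := by
  classical
  have hA' : (insert a' Θ).val.map Prod.fst = s := by
    rw [← hA, map_insert ha, map_insert ha', hdeg]
  have hfil : ∀ B : Finset (ℕ × ℕ), B.val.map Prod.fst = s → ∀ b ∈ B, b.1 ≠ k - h.1 := by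
    rintro B rfl b hb hb1
    exact hs (hb1 ▸ Multiset.mem_map.2 ⟨b, hb, rfl⟩)
  have haa : a' ∉ insert a Θ := by
    rw [Finset.mem_insert, not_or]
    exact ⟨hne.symm, ha'⟩
  have h1 : h ∉ insert a Θ := by
    rw [Finset.mem_insert, not_or]; exact ⟨hah.symm, hh⟩
  have h1' : h ∉ insert a' Θ := by
    rw [Finset.mem_insert, not_or]; exact ⟨hah'.symm, hh⟩
  have h2 : h ∉ insert a' (insert a Θ) := by
    rw [Finset.mem_insert, not_or]; exact ⟨hah'.symm, h1⟩
  refine (((gen_KH 𝓕 hk h1).and (gen_KH 𝓕 hk h1')).and (gen_KH 𝓕 hk h2)).mono ?_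
  rintro P ⟨⟨g1, g2⟩, g3⟩
  rw [hA] at g1
  rw [hA'] at g2
  rw [map_insert haa, hA, hdeg, hst] at g3
  have e1 : KH 𝓕 k P h (insert a Θ) = KH 𝓕 k P h (insert a' (insert a Θ)) :=
    Submodule.eq_of_le_of_finrank_eq (KH_mono 𝓕 (Finset.subset_insert _ _)) (by rw [g1, g3])
  have e2 : KH 𝓕 k P h (insert a' Θ) = KH 𝓕 k P h (insert a' (insert a Θ)) := by
    refine Submodule.eq_of_le_of_finrank_eq (KH_mono 𝓕 ?_) (by rw [g2, g3])
    exact Finset.insert_subset_insert _ (Finset.subset_insert _ _)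
  ext x
  rw [mem_PP, mem_PP, e1, ← e2]
  refine and_congr_right fun _ => ?_
  constructor
  · intro _ b hb hb1
    exact absurd hb1 (hfil _ hA' b hb)
  · intro _ b hb hb1
    exact absurd hb1 (hfil _ hA b hb)

/-- exchange of a form of another degree -/
lemma exch2 {k : ℕ} {h a a' : ℕ × ℕ} {Θ : Finset (ℕ × ℕ)} {s : Multiset ℕ} (hk : h.1 ≤ k)
    (hh : h ∉ Θ) (ha : a ∉ Θ) (ha' : a' ∉ Θ) (hne : a ≠ a') (hah : a ≠ h) (hah' : a' ≠ h)
    (hdeg : a'.1 = a.1) (hA : (insert a Θ).val.map Prod.fst = (k - h.1) ::ₘ s)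
    (haj : a.1 ≠ k - h.1) (hst : kd 𝓕 k h.1 (a.1 ::ₘ s) = kd 𝓕 k h.1 s) :
    Gen K (fun P : (ℕ × ℕ) × 𝓕.Γ → K => PP 𝓕 k P h (insert a Θ) = PP 𝓕 k P h (insert a' Θ)) := by
  classical
  have hA' : (insert a' Θ).val.map Prod.fst = (k - h.1) ::ₘ s := by
    rw [← hA, map_insert ha, map_insert ha', hdeg]
  have hmem : ∀ b ∈ Θ, b.1 = k - h.1 →
      (insert a (Θ.erase b)).val.map Prod.fst = s ∧ (insert a' (Θ.erase b)).val.map Prod.fst = s := by
    intro b hb hb1
    have hab : a ≠ b := fun h => ha (h ▸ hb)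
    have hab' : a' ≠ b := fun h => ha' (h ▸ hb)
    have e1 := erase_type (Finset.mem_insert_of_mem hb : b ∈ insert a Θ)
    have e2 := erase_type (Finset.mem_insert_of_mem hb : b ∈ insert a' Θ)
    rw [hA, hb1, Multiset.cons_inj_right, Finset.erase_insert_of_ne hab] at e1
    rw [hA', hb1, Multiset.cons_inj_right, Finset.erase_insert_of_ne hab'] at e2
    exact ⟨e1.symm, e2.symm⟩
  obtain ⟨b0, hb0, hb01⟩ : ∃ b ∈ Θ, b.1 = k - h.1 := by
    have : k - h.1 ∈ (insert a Θ).val.map Prod.fst := by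
      rw [hA]; exact Multiset.mem_cons_self _ _
    obtain ⟨b, hb, hb1⟩ := Multiset.mem_map.1 this
    rw [Finset.mem_val, Finset.mem_insert] at hb
    rcases hb with rfl | hb
    · exact absurd hb1 haj
    · exact ⟨b, hb, hb1⟩
  have g := Gen.ball (Γ := (ℕ × ℕ) × 𝓕.Γ) (K := K) (Θ.filter fun b => b.1 = k - h.1)
    (Q := fun b P => KH 𝓕 k P h (insert a (Θ.erase b)) = KH 𝓕 k P h (insert a' (Θ.erase b)))
    (fun b hb => by
      rw [Finset.mem_filter] at hb
      obtain ⟨e1, e2⟩ := hmem b hb.1 hb.2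
      have hae : a ∉ Θ.erase b := fun h' => ha (Finset.mem_of_mem_erase h')
      have hae' : a' ∉ Θ.erase b := fun h' => ha' (Finset.mem_of_mem_erase h')
      have hhe : h ∉ Θ.erase b := fun h' => hh (Finset.mem_of_mem_erase h')
      have haa : a' ∉ insert a (Θ.erase b) := by
        rw [Finset.mem_insert, not_or]
        exact ⟨hne.symm, hae'⟩
      have h1 : h ∉ insert a (Θ.erase b) := by
        rw [Finset.mem_insert, not_or]; exact ⟨hah.symm, hhe⟩
      have h1' : h ∉ insert a' (Θ.erase b) := by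
        rw [Finset.mem_insert, not_or]; exact ⟨hah'.symm, hhe⟩
      have h2 : h ∉ insert a' (insert a (Θ.erase b)) := by
        rw [Finset.mem_insert, not_or]; exact ⟨hah'.symm, h1⟩
      refine (((gen_KH 𝓕 hk h1).and (gen_KH 𝓕 hk h1')).and (gen_KH 𝓕 hk h2)).mono ?_
      rintro P ⟨⟨g1, g2⟩, g3⟩
      rw [e1] at g1
      rw [e2] at g2
      rw [map_insert haa, e1, hdeg, hst] at g3
      have e1 : KH 𝓕 k P h (insert a (Θ.erase b)) = KH 𝓕 k P h (insert a' (insert a (Θ.erase b))) :=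
        Submodule.eq_of_le_of_finrank_eq (KH_mono 𝓕 (Finset.subset_insert _ _)) (by rw [g1, g3])
      have e2 : KH 𝓕 k P h (insert a' (Θ.erase b)) =
          KH 𝓕 k P h (insert a' (insert a (Θ.erase b))) := by
        refine Submodule.eq_of_le_of_finrank_eq (KH_mono 𝓕 ?_) (by rw [g2, g3])
        exact Finset.insert_subset_insert _ (Finset.subset_insert _ _)
      rw [e1, e2])
  refine g.mono fun P hP => ?_
  have key : ∀ c c' : ℕ × ℕ, c ∉ Θ → c' ∉ Θ → c.1 ≠ k - h.1 → c'.1 ≠ k - h.1 →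
      (∀ b ∈ Θ, b.1 = k - h.1 →
        KH 𝓕 k P h (insert c (Θ.erase b)) = KH 𝓕 k P h (insert c' (Θ.erase b))) →
      PP 𝓕 k P h (insert c Θ) ≤ PP 𝓕 k P h (insert c' Θ) := by
    intro c c' hc hc' hcj hcj' H x hx
    rw [mem_PP] at hx ⊢
    have h3 : ∀ b ∈ Θ, b.1 = k - h.1 → x ∈ KH 𝓕 k P h ((insert c' Θ).erase b) := by
      intro b hb hb1
      have hcb : c ≠ b := fun h => hc (h ▸ hb)
      have hcb' : c' ≠ b := fun h => hc' (h ▸ hb)
      have h4 := hx.2 b (Finset.mem_insert_of_mem hb) hb1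
      rw [Finset.erase_insert_of_ne hcb] at h4
      rw [Finset.erase_insert_of_ne hcb', ← H b hb hb1]
      exact h4
    refine ⟨KH_mono 𝓕 (Finset.erase_subset _ _) (h3 b0 hb0 hb01), fun b hb hb1 => ?_⟩
    rw [Finset.mem_insert] at hb
    rcases hb with rfl | hb
    · exact absurd hb1 hcj'
    · exact h3 b hb hb1
  have haj' : a'.1 ≠ k - h.1 := by rw [hdeg]; exact haj
  refine le_antisymm (key a a' ha ha' haj haj' fun b hb hb1 => hP b (Finset.mem_filter.2 ⟨hb, hb1⟩))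
    (key a' a ha' ha haj' haj fun b hb hb1 => (hP b (Finset.mem_filter.2 ⟨hb, hb1⟩)).symm)

/-- exchange of a form of degree `k - h.1` -/
lemma exch3 {k : ℕ} {h a a' : ℕ × ℕ} {Θ : Finset (ℕ × ℕ)} {s : Multiset ℕ} (hk : h.1 ≤ k)
    (hh : h ∉ Θ) (ha : a ∉ Θ) (ha' : a' ∉ Θ) (hne : a ≠ a') (hah : a ≠ h) (hah' : a' ≠ h)
    (haj : a.1 = k - h.1) (haj' : a'.1 = k - h.1) (hΘ : Θ.val.map Prod.fst = s)
    (hst : kd 𝓕 k h.1 ((k - h.1) ::ₘ s) = kd 𝓕 k h.1 s + 1)
    (hlt : kd 𝓕 k h.1 ((k - h.1) ::ₘ s) < finrank K (Rj K σ (k - h.1))) :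
    Gen K (fun P : (ℕ × ℕ) × 𝓕.Γ → K => PP 𝓕 k P h (insert a Θ) = PP 𝓕 k P h (insert a' Θ)) := by
  classical
  have hlt' : kd 𝓕 k h.1 s < finrank K (Rj K σ (k - h.1)) := by omega
  have tyA : (insert a Θ).val.map Prod.fst = (k - h.1) ::ₘ s := by rw [map_insert ha, haj, hΘ]
  have tyA' : (insert a' Θ).val.map Prod.fst = (k - h.1) ::ₘ s := by rw [map_insert ha', haj', hΘ]
  have haa : a' ∉ insert a Θ := by
    rw [Finset.mem_insert, not_or]
    exact ⟨hne.symm, ha'⟩
  have h1 : h ∉ insert a Θ := by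
    rw [Finset.mem_insert, not_or]; exact ⟨hah.symm, hh⟩
  have h1' : h ∉ insert a' Θ := by
    rw [Finset.mem_insert, not_or]; exact ⟨hah'.symm, hh⟩
  have g := Gen.ball (Γ := (ℕ × ℕ) × 𝓕.Γ) (K := K) (Θ.filter fun b => b.1 = k - h.1)
    (Q := fun b P => KH 𝓕 k P h Θ ⊓ KH 𝓕 k P h (insert a (Θ.erase b)) =
      KH 𝓕 k P h Θ ⊓ KH 𝓕 k P h (insert a' (Θ.erase b)))
    (fun b hb => by
      rw [Finset.mem_filter] at hb
      obtain ⟨hb, hb1⟩ := hb
      have hab : a ≠ b := fun h => ha (h ▸ hb)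
      have hab' : a' ≠ b := fun h => ha' (h ▸ hb)
      have hbh : b ≠ h := fun h' => hh (h' ▸ hb)
      have hae : a ∉ Θ.erase b := fun h' => ha (Finset.mem_of_mem_erase h')
      have hae' : a' ∉ Θ.erase b := fun h' => ha' (Finset.mem_of_mem_erase h')
      have hhe : h ∉ Θ.erase b := fun h' => hh (Finset.mem_of_mem_erase h')
      have e1 : (insert a (Θ.erase b)).val.map Prod.fst = s := by
        have e1 := erase_type (Finset.mem_insert_of_mem hb : b ∈ insert a Θ)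
        rw [tyA, hb1, Multiset.cons_inj_right, Finset.erase_insert_of_ne hab] at e1
        exact e1.symm
      have e2 : (insert a' (Θ.erase b)).val.map Prod.fst = s := by
        have e1 := erase_type (Finset.mem_insert_of_mem hb : b ∈ insert a' Θ)
        rw [tyA', hb1, Multiset.cons_inj_right, Finset.erase_insert_of_ne hab'] at e1
        exact e1.symm
      have haa' : a' ∉ insert a (Θ.erase b) := by
        rw [Finset.mem_insert, not_or]
        exact ⟨hne.symm, hae'⟩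
      have hba : b ∉ insert a (Θ.erase b) := by
        rw [Finset.mem_insert, not_or]
        exact ⟨hab.symm, Finset.notMem_erase b Θ⟩
      have k1 : h ∉ insert a (Θ.erase b) := by
        rw [Finset.mem_insert, not_or]; exact ⟨hah.symm, hhe⟩
      have k1' : h ∉ insert a' (Θ.erase b) := by
        rw [Finset.mem_insert, not_or]; exact ⟨hah'.symm, hhe⟩
      have k2 : h ∉ insert a' (insert a (Θ.erase b)) := by
        rw [Finset.mem_insert, not_or]; exact ⟨hah'.symm, k1⟩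
      have G1 := ((gen_KH 𝓕 hk k1).and (gen_KH 𝓕 hk k1')).and (gen_KH 𝓕 hk k2)
      have G2 := ((gen_KH 𝓕 hk hh).and (gen_KH 𝓕 hk h1)).and (gen_KH 𝓕 hk h1')
      have G3 := gen_fm_notMem 𝓕 (a := b) hk k1 hba hbh hb1 (by rw [e1]; exact hlt')
      have G4 := gen_fm_notMem 𝓕 (a := a') hk k1 haa' hah' haj' (by rw [e1]; exact hlt')
      have G5 := gen_fm_notMem 𝓕 (a := a') hk hh ha' hah' haj' (by rw [hΘ]; exact hlt')
      have G6 := gen_fm_notMem 𝓕 (a := a') hk h1 haa hah' haj' (by rw [tyA]; exact hlt)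
      refine (((((G1.and G2).and G3).and G4).and G5).and G6).mono ?_
      rintro P ⟨⟨⟨⟨⟨⟨⟨d1, d2⟩, d3⟩, ⟨d4, d5⟩, d6⟩, n3⟩, n4⟩, n5⟩, n6⟩
      rw [e1] at d1
      rw [e2] at d2
      rw [map_insert haa', e1, haj', hst] at d3
      rw [hΘ] at d4
      rw [tyA, hst] at d5
      rw [tyA', hst] at d6
      have sub1 : insert a (Θ.erase b) ⊆ insert a Θ :=
        Finset.insert_subset_insert _ (Finset.erase_subset _ _)
      have sub2 : insert a' (Θ.erase b) ⊆ insert a' Θ :=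
        Finset.insert_subset_insert _ (Finset.erase_subset _ _)
      have sub3 : insert a' (Θ.erase b) ⊆ insert a' (insert a (Θ.erase b)) :=
        Finset.insert_subset_insert _ (Finset.subset_insert _ _)
      have i12 := inf_hyper (A := KH 𝓕 k P h Θ) (H := KH 𝓕 k P h (insert a (Θ.erase b)))
        (L := KH 𝓕 k P h (insert a Θ)) (KH_mono 𝓕 (Finset.subset_insert _ _)) (KH_mono 𝓕 sub1)
        (by rw [d1, d5]) (f := fm 𝓕 P b) (fm_mem_KH 𝓕 hk hb hb1) n3
      have i13 := inf_hyper (A := KH 𝓕 k P h (insert a' (Θ.erase b)))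
        (H := KH 𝓕 k P h (insert a (Θ.erase b)))
        (L := KH 𝓕 k P h (insert a' (insert a (Θ.erase b)))) (KH_mono 𝓕 sub3)
        (KH_mono 𝓕 (Finset.subset_insert _ _))
        (by rw [d1, d3]) (f := fm 𝓕 P a') (fm_mem_KH 𝓕 hk (Finset.mem_insert_self _ _) haj') n4
      have i23 := inf_hyper (A := KH 𝓕 k P h (insert a' (Θ.erase b)))
        (H := KH 𝓕 k P h Θ) (L := KH 𝓕 k P h (insert a' Θ)) (KH_mono 𝓕 sub2)
        (KH_mono 𝓕 (Finset.subset_insert _ _))
        (by rw [d4, d6]) (f := fm 𝓕 P a') (fm_mem_KH 𝓕 hk (Finset.mem_insert_self _ _) haj') n5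
      refine sunflower ?_ ?_ ?_ ?_
      · rw [inf_comm]; exact i13
      · rw [inf_comm]; exact i23
      · rw [inf_comm, i12, d4, d2]
      · intro h3
        apply n6
        have h4 := h3 (fm_mem_KH 𝓕 hk (Finset.mem_insert_self a' (Θ.erase b)) haj')
        exact (sup_le (KH_mono 𝓕 sub1) (KH_mono 𝓕 (Finset.subset_insert _ _)) :
          KH 𝓕 k P h (insert a (Θ.erase b)) ⊔ KH 𝓕 k P h Θ ≤ KH 𝓕 k P h (insert a Θ)) h4)
  refine g.mono fun P hP => ?_
  have key : ∀ c c' : ℕ × ℕ, c ∉ Θ → c' ∉ Θ → c.1 = k - h.1 → c'.1 = k - h.1 →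
      (∀ b ∈ Θ, b.1 = k - h.1 →
        KH 𝓕 k P h Θ ⊓ KH 𝓕 k P h (insert c (Θ.erase b)) =
          KH 𝓕 k P h Θ ⊓ KH 𝓕 k P h (insert c' (Θ.erase b))) →
      PP 𝓕 k P h (insert c Θ) ≤ PP 𝓕 k P h (insert c' Θ) := by
    intro c c' hc hc' hcj hcj' H x hx
    rw [mem_PP] at hx ⊢
    have h2 : x ∈ KH 𝓕 k P h Θ := by
      have := hx.2 c (Finset.mem_insert_self _ _) hcj
      rwa [Finset.erase_insert hc] at this
    refine ⟨KH_mono 𝓕 (Finset.subset_insert _ _) h2, fun b hb hb1 => ?_⟩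
    rw [Finset.mem_insert] at hb
    rcases hb with rfl | hb
    · rw [Finset.erase_insert hc']
      exact h2
    · have hcb : c ≠ b := fun h => hc (h ▸ hb)
      have hcb' : c' ≠ b := fun h => hc' (h ▸ hb)
      have h4 := hx.2 b (Finset.mem_insert_of_mem hb) hb1
      rw [Finset.erase_insert_of_ne hcb] at h4
      rw [Finset.erase_insert_of_ne hcb']
      have h5 : x ∈ KH 𝓕 k P h Θ ⊓ KH 𝓕 k P h (insert c (Θ.erase b)) := ⟨h2, h4⟩
      rw [H b hb hb1] at h5
      exact h5.2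
  refine le_antisymm (key a a' ha ha' haj haj' fun b hb hb1 => hP b (Finset.mem_filter.2 ⟨hb, hb1⟩))
    (key a' a ha' ha haj' haj fun b hb hb1 => (hP b (Finset.mem_filter.2 ⟨hb, hb1⟩)).symm)

end

end K4H38FR
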