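import Mathlib
import Pool.Agent.K4H38.FR.Exch

/-!
Growth of the excess of the colon spaces.
-/

set_option autoImplicit false
set_option linter.unusedSectionVars false

namespace K4H38FR

open MvPolynomial H350MG Module K4H38FP

noncomputable section

variable {K : Type} [Field K] [CharZero K] {σ : Type} [Fintype σ] [DecidableEq σ] (𝓕 : Fmy K σ)

/-- the parameters of the forms with indices in `A` moved along the family of substitutions -/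
def mq (P : (ℕ × ℕ) × 𝓕.Γ → K) (A : Finset (ℕ × ℕ)) (t : K) (a w : σ → K) :
    (ℕ × ℕ) × 𝓕.Γ → K := fun y => if y.1 ∈ A then 𝓕.W a w t (pa 𝓕 P y.1) y.2 else P y

lemma pa_mq_mem {A : Finset (ℕ × ℕ)} {c : ℕ × ℕ} (hc : c ∈ A) (P : (ℕ × ℕ) × 𝓕.Γ → K) (t : K)
    (a w : σ → K) : pa 𝓕 (mq 𝓕 P A t a w) c = 𝓕.W a w t (pa 𝓕 P c) := by
  funext y
  unfold pa mq
  rw [if_pos hc]
  rfl

lemma pa_mq_ne {A : Finset (ℕ × ℕ)} {c : ℕ × ℕ} (hc : c ∉ A) (P : (ℕ × ℕ) × 𝓕.Γ → K) (t : K)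
    (a w : σ → K) : pa 𝓕 (mq 𝓕 P A t a w) c = pa 𝓕 P c := by
  funext y
  unfold pa mq
  rw [if_neg hc]

lemma mq_zero (P : (ℕ × ℕ) × 𝓕.Γ → K) (A : Finset (ℕ × ℕ)) (a w : σ → K) :
    mq 𝓕 P A 0 a w = P := by
  funext y
  unfold mq
  split_ifs with h
  · rw [𝓕.W_zero]
    rfl
  · rfl

lemma pl_mq (Ψ : MvPolynomial ((ℕ × ℕ) × 𝓕.Γ) K) (P : (ℕ × ℕ) × 𝓕.Γ → K) (A : Finset (ℕ × ℕ))
    (a w : σ → K) : Pl (fun t => eval (mq 𝓕 P A t a w) Ψ) := by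
  have h1 : ∀ y : (ℕ × ℕ) × 𝓕.Γ, ∃ p : Polynomial K, ∀ t, p.eval t = mq 𝓕 P A t a w y := by
    intro y
    unfold mq
    by_cases h : y.1 ∈ A
    · obtain ⟨p, hp⟩ := 𝓕.W_pl a w (pa 𝓕 P y.1) y.2
      refine ⟨p, fun t => ?_⟩
      rw [if_pos h]
      exact hp t
    · refine ⟨Polynomial.C (P y), fun t => ?_⟩
      rw [if_neg h, Polynomial.eval_C]
  choose cp hcp using h1
  refine ⟨aeval cp Ψ, fun t => ?_⟩
  beta_reduce
  induction Ψ using MvPolynomial.induction_on with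
  | C c => simp
  | add p q hp hq => rw [map_add, Polynomial.eval_add, hp, hq, map_add]
  | mul_X p y hp => rw [map_mul, Polynomial.eval_mul, hp, map_mul, aeval_X, eval_X, hcp]

lemma sb_JA {k : ℕ} {P : (ℕ × ℕ) × 𝓕.Γ → K} {A : Finset (ℕ × ℕ)} {t : K} {a w : σ → K}
    {F : MvPolynomial σ K} (hF : F ∈ JA 𝓕 k (mq 𝓕 P A t a w) A) : sb t a w F ∈ JA 𝓕 k P A := by
  have h1 : JA 𝓕 k (mq 𝓕 P A t a w) A ≤ (JA 𝓕 k P A).comap (sb t a w).toLinearMap := by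
    rw [JA_le_iff]
    intro c hc
    unfold Jt
    split_ifs with h
    · rintro _ ⟨g, hg, rfl⟩
      rw [Submodule.mem_comap]
      change sb t a w (fm 𝓕 (mq 𝓕 P A t a w) c * g) ∈ _
      rw [map_mul]
      have h2 : sb t a w (fm 𝓕 (mq 𝓕 P A t a w) c) =
          ((𝓕.sc a w).eval t) ^ c.1 • fm 𝓕 P c := by
        unfold fm
        rw [pa_mq_mem 𝓕 hc, 𝓕.sb_W]
      rw [h2, smul_mul_assoc]
      refine Submodule.smul_mem _ _ (Jt_le_JA 𝓕 hc ?_)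
      unfold Jt
      rw [if_pos h]
      exact ⟨sb t a w g, sb_hom hg, rfl⟩
    · exact bot_le
  exact h1 hF

/-- if a nonzero space in the colon space does not depend on the forms, then the ideal contains all
forms -/
theorem top_of {k : ℕ} {h : ℕ × ℕ} {A : Finset (ℕ × ℕ)} (hk : h.1 ≤ k) (hh : h ∉ A)
    (X : ((ℕ × ℕ) × 𝓕.Γ → K) → Submodule K (MvPolynomial σ K))
    (Ψ : MvPolynomial ((ℕ × ℕ) × 𝓕.Γ) K) (P0 : (ℕ × ℕ) × 𝓕.Γ → K) (h0 : eval P0 Ψ ≠ 0)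
    (hX1 : ∀ P, eval P Ψ ≠ 0 → X P ≤ KH 𝓕 k P h A)
    (hX2 : ∀ t a w, eval (mq 𝓕 P0 A t a w) Ψ ≠ 0 → X (mq 𝓕 P0 A t a w) = X P0)
    (hne : X P0 ≠ ⊥) (hfm : fm 𝓕 P0 h ≠ 0) : Rj K σ k ≤ JA 𝓕 k P0 A := by
  obtain ⟨c, hc, hc0⟩ := Submodule.exists_mem_ne_zero_of_ne_bot hne
  have hcj : c ∈ Rj K σ (k - h.1) := (hX1 P0 h0 hc).1
  have hF : fm 𝓕 P0 h * c ∈ Rj K σ k := by
    have h1 : (fm 𝓕 P0 h).IsHomogeneous h.1 := fm_hom 𝓕 P0 h
    have h2 : c.IsHomogeneous (k - h.1) := hcj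
    have := h1.mul h2
    rwa [Nat.add_sub_cancel' hk] at this
  obtain ⟨a, ha⟩ : ∃ a : σ → K, eval a (fm 𝓕 P0 h * c) ≠ 0 := by
    by_contra hcon'
    push Not at hcon'
    exact mul_ne_zero hfm hc0 (MvPolynomial.funext fun w => by rw [hcon' w, map_zero])
  refine mem_span_of_lin fun μ hμ w => ?_
  obtain ⟨q1, hq1⟩ := pl_mq 𝓕 Ψ P0 A a w
  obtain ⟨q3, hq3⟩ := pl_sb μ a w (fm 𝓕 P0 h * c)
  beta_reduce at hq1 hq3
  have hz : q1 * q3 = 0 := by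
    refine Polynomial.funext fun t => ?_
    rw [Polynomial.eval_mul, Polynomial.eval_zero]
    by_cases ht : q1.eval t = 0
    · rw [ht, zero_mul]
    · rw [hq1] at ht
      have e1 : c ∈ KH 𝓕 k (mq 𝓕 P0 A t a w) h A := by
        refine hX1 _ ht ?_
        rw [hX2 t a w ht]
        exact hc
      have e2 : fm 𝓕 (mq 𝓕 P0 A t a w) h = fm 𝓕 P0 h := by
        unfold fm
        rw [pa_mq_ne 𝓕 hh]
      have e3 : fm 𝓕 (mq 𝓕 P0 A t a w) h * c ∈ JA 𝓕 k (mq 𝓕 P0 A t a w) A := e1.2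
      rw [e2] at e3
      have e4 := hμ (sb_JA 𝓕 e3)
      rw [LinearMap.mem_ker] at e4
      rw [hq3, e4, mul_zero]
  have hq10 : q1 ≠ 0 := by
    rintro rfl
    have := hq1 0
    rw [mq_zero, Polynomial.eval_zero] at this
    exact h0 this.symm
  have hq30 : q3 = 0 := by
    rcases mul_eq_zero.1 hz with h1 | h1
    · exact absurd h1 hq10
    · exact h1
  have h1 := hq3 1
  rw [hq30, Polynomial.eval_zero, sb_one hF, map_smul, smul_eq_mul] at h1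
  rcases mul_eq_zero.1 h1.symm with h2 | h2
  · exact absurd h2 ha
  · exact h2

lemma qv_zero_of {k : ℕ} {P : (ℕ × ℕ) × 𝓕.Γ → K} {A : Finset (ℕ × ℕ)}
    (h1 : finrank K (JA 𝓕 k P A) + qv 𝓕 k (A.val.map Prod.fst) = finrank K (Rj K σ k))
    (h2 : Rj K σ k ≤ JA 𝓕 k P A) : qv 𝓕 k (A.val.map Prod.fst) = 0 := by
  have := Submodule.finrank_mono h2
  omega

lemma qv_anti (k : ℕ) (s : Multiset ℕ) (t : ℕ) : qv 𝓕 k (t ::ₘ s) ≤ qv 𝓕 k s := by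
  classical
  obtain ⟨A, rfl⟩ := exists_fin s
  obtain ⟨i, hi⟩ := exists_fresh t A
  obtain ⟨P, hP1, hP2⟩ := ((gen_J 𝓕 k A).and (gen_J 𝓕 k (insert (t, i) A))).exists
  rw [map_insert hi] at hP2
  have := Submodule.finrank_mono (JA_mono 𝓕 (k := k) (P := P) (Finset.subset_insert (t, i) A))
  change _ + qv 𝓕 k (t ::ₘ _) = _ at hP2
  omega

/-- moving all forms -/
lemma gen_move {s' : Multiset ℕ} {h : ℕ × ℕ}
    (X : ((ℕ × ℕ) × 𝓕.Γ → K) → Finset (ℕ × ℕ) → Submodule K (MvPolynomial σ K))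
    (hX : ∀ (Θ : Finset (ℕ × ℕ)) (a a' : ℕ × ℕ), h ∉ Θ → a ∉ Θ → a' ∉ Θ → a ≠ a' → a ≠ h → a' ≠ h →
      a'.1 = a.1 → (insert a Θ).val.map Prod.fst = s' →
      Gen K (fun P : (ℕ × ℕ) × 𝓕.Γ → K => X P (insert a Θ) = X P (insert a' Θ)))
    (Y : Finset (ℕ × ℕ)) : ∀ (n : ℕ) (A : Finset (ℕ × ℕ)),
    (A ∩ Y).card = n → A.val.map Prod.fst = s' → h ∉ A →
    ∃ B : Finset (ℕ × ℕ), B.val.map Prod.fst = s' ∧ Disjoint B Y ∧ h ∉ B ∧
      Gen K (fun P : (ℕ × ℕ) × 𝓕.Γ → K => X P A = X P B) := by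
  classical
  intro n
  induction n with
  | zero =>
    intro A hA hs hh
    refine ⟨A, hs, ?_, hh, Gen.of_forall fun _ => rfl⟩
    rw [Finset.card_eq_zero] at hA
    exact Finset.disjoint_iff_inter_eq_empty.2 hA
  | succ n ih =>
    intro A hA hs hh
    obtain ⟨a, haX⟩ : (A ∩ Y).Nonempty := by
      rw [← Finset.card_pos]; omega
    have ha := (Finset.mem_inter.1 haX).1
    obtain ⟨j, hj⟩ := exists_fresh a.1 (insert h (A ∪ Y))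
    rw [Finset.mem_insert, Finset.mem_union, not_or, not_or] at hj
    have hb' : (a.1, j) ∉ A.erase a := fun h => hj.2.1 (Finset.mem_of_mem_erase h)
    have hha : a ≠ h := fun h' => hh (h' ▸ ha)
    have haj : a ≠ (a.1, j) := fun h' => hj.2.1 (h' ▸ ha)
    have hAe : h ∉ A.erase a := fun h' => hh (Finset.mem_of_mem_erase h')
    have e0 : insert a (A.erase a) = A := Finset.insert_erase ha
    have e1 : (insert (a.1, j) (A.erase a)).val.map Prod.fst = s' := by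
      rw [map_insert hb', ← hs]
      exact (erase_type ha).symm
    have hcard : (insert (a.1, j) (A.erase a) ∩ Y).card = n := by
      have : insert (a.1, j) (A.erase a) ∩ Y = (A ∩ Y).erase a := by
        rw [Finset.insert_inter_of_notMem hj.2.2, Finset.erase_inter]
      rw [this, Finset.card_erase_of_mem haX, hA]
      rfl
    have hh' : h ∉ insert (a.1, j) (A.erase a) := by
      rw [Finset.mem_insert, not_or]
      exact ⟨fun h' => hj.1 h'.symm, hAe⟩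
    obtain ⟨B, hB1, hB2, hB3, hB4⟩ := ih (insert (a.1, j) (A.erase a)) hcard e1 hh'
    refine ⟨B, hB1, hB2, hB3, ?_⟩
    have h5 := hX (A.erase a) a (a.1, j) hAe (Finset.notMem_erase a A) hb' haj hha hj.1 rfl
      (by rw [e0]; exact hs)
    rw [e0] at h5
    exact (h5.and hB4).mono fun P hP => hP.1.trans hP.2

variable [Nonempty σ]

lemma finrank_Rj_pos (j : ℕ) : 0 < finrank K (Rj K σ j) := by
  rw [finrank_Rj]
  refine Nat.choose_pos ?_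
  have := Fintype.card_pos (α := σ)
  omega

/-- if the colon space is everything, the ideal contains all forms of degree `k` -/
lemma full_top {k δ : ℕ} (hk : δ ≤ k) (s : Multiset ℕ)
    (hf : kd 𝓕 k δ s = finrank K (Rj K σ (k - δ))) : qv 𝓕 k s = 0 := by
  classical
  obtain ⟨A, rfl⟩ := exists_fin s
  obtain ⟨j, hj⟩ := exists_fresh δ A
  obtain ⟨Ψ, hΨ0, hΨ⟩ := gen_KH 𝓕 (h := (δ, j)) hk hj
  have hg : Gen K (fun P : (ℕ × ℕ) × 𝓕.Γ → K => eval P Ψ ≠ 0) := ⟨Ψ, hΨ0, fun _ h => h⟩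
  obtain ⟨P, ⟨hP1, hP2⟩, hP3⟩ := ((hg.and (gen_J 𝓕 k A)).and (gen_fm_ne 𝓕 (δ, j))).exists
  refine qv_zero_of 𝓕 hP2 (top_of 𝓕 (h := (δ, j)) hk hj (fun _ => Rj K σ (k - δ)) Ψ P hP1 ?_
    (fun _ _ _ _ => rfl) ?_ hP3)
  · intro P' hP'
    have h1 := hΨ P' hP'
    change _ = kd 𝓕 k δ _ at h1
    rw [hf] at h1
    exact (Submodule.eq_of_le_of_finrank_eq (KH_le 𝓕 (k := k) (P := P') (h := (δ, j)) (A := A))
      h1).ge
  · intro h
    have := finrank_Rj_pos (K := K) (σ := σ) (k - δ)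
    have h2 : finrank K (Rj K σ (k - δ)) = 0 := by
      have h3 : Rj K σ (k - δ) = ⊥ := h
      rw [h3, finrank_bot]
    omega

/-- growth, no form of degree `k - δ` -/
lemma growA {k δ : ℕ} (hk : δ ≤ k) {s : Multiset ℕ} (hs : k - δ ∉ s) (hpos : 0 < kd 𝓕 k δ s)
    (hq : qv 𝓕 k s ≠ 0) : ∃ t ∈ s, kd 𝓕 k δ s + 1 ≤ kd 𝓕 k δ (t ::ₘ s) := by
  classical
  by_contra hcon
  push Not at hcon
  have heq : ∀ t ∈ s, kd 𝓕 k δ (t ::ₘ s) = kd 𝓕 k δ s := fun t ht =>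
    le_antisymm (by have := hcon t ht; omega) (kd_mono 𝓕 hk s t)
  apply hq
  obtain ⟨A, rfl⟩ := exists_fin s
  obtain ⟨j, hj⟩ := exists_fresh δ A
  obtain ⟨B, hB1, hB2, hB3, hB4⟩ := gen_move 𝓕 (s' := A.val.map Prod.fst) (h := (δ, j))
    (fun P A => PP 𝓕 k P (δ, j) A) (by
      intro Θ a a' h1 h2 h3 h4 h5 h6 h7 h8
      refine exch1 𝓕 (h := (δ, j)) hk h1 h2 h3 h4 h5 h6 h7 h8 hs (heq a.1 ?_)
      rw [← h8]
      exact Multiset.mem_map.2 ⟨a, Finset.mem_insert_self _ _, rfl⟩) A _ A rfl rfl hj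
  obtain ⟨Ψ, hΨ0, hΨ⟩ := hB4
  have hg : Gen K (fun P : (ℕ × ℕ) × 𝓕.Γ → K => eval P Ψ ≠ 0) := ⟨Ψ, hΨ0, fun _ h => h⟩
  obtain ⟨P, ⟨⟨hP1, hP2⟩, hP3⟩, hP4⟩ := (((hg.and (gen_J 𝓕 k A)).and
    (gen_fm_ne 𝓕 (δ, j))).and (gen_KH 𝓕 (h := (δ, j)) hk hj)).exists
  have ePP : PP 𝓕 k P (δ, j) A = KH 𝓕 k P (δ, j) A := by
    ext x
    rw [mem_PP]
    refine ⟨fun h => h.1, fun h => ⟨h, fun b hb hb1 => ?_⟩⟩
    exfalso
    have hb1' : b.1 = k - δ := hb1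
    exact hs (hb1' ▸ Multiset.mem_map.2 ⟨b, hb, rfl⟩)
  refine qv_zero_of 𝓕 hP2 (top_of 𝓕 (h := (δ, j)) hk hj (fun P => PP 𝓕 k P (δ, j) A) Ψ P hP1 ?_
    ?_ ?_ hP3)
  · intro P' _
    exact PP_le 𝓕 k P' (δ, j) A
  · intro t a w ht
    have h1 := hΨ _ ht
    have h2 := hΨ _ hP1
    beta_reduce at h1 h2 ⊢
    rw [h1, h2]
    refine PP_congr 𝓕 (pa_mq_ne 𝓕 hj _ _ _ _) fun b hb => pa_mq_ne 𝓕 ?_ _ _ _ _
    exact Finset.disjoint_left.1 hB2 hb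
  · rw [ePP]
    intro h
    rw [h, finrank_bot] at hP4
    change 0 = kd 𝓕 k δ _ at hP4
    omega

lemma ex_mono {k δ : ℕ} (hk : δ ≤ k) (s : Multiset ℕ) (hq : qv 𝓕 k s ≠ 0) (t : ℕ) :
    ex 𝓕 k δ s ≤ ex 𝓕 k δ (t ::ₘ s) := by
  unfold ex
  by_cases ht : t = k - δ
  · subst ht
    have h1 : kd 𝓕 k δ s < finrank K (Rj K σ (k - δ)) :=
      lt_of_le_of_ne (kd_le 𝓕 hk s) fun h => hq (full_top 𝓕 hk s h)
    have h2 := kd_strict 𝓕 hk s h1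
    rw [Multiset.count_cons_self]
    push_cast
    omega
  · rw [Multiset.count_cons_of_ne (Ne.symm ht)]
    have := kd_mono 𝓕 hk s t
    omega

/-- growth of the excess -/
lemma growB {k δ : ℕ} (hk : δ ≤ k) {s : Multiset ℕ} (hpos : 0 < ex 𝓕 k δ s)
    (hq : qv 𝓕 k ((k - δ) ::ₘ s) ≠ 0) :
    ∃ t ∈ (k - δ) ::ₘ s, ex 𝓕 k δ s + 1 ≤ ex 𝓕 k δ (t ::ₘ s) := by
  classical
  by_contra hcon
  push Not at hcon
  have hq' : qv 𝓕 k s ≠ 0 := fun h => hq (by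
    have := qv_anti 𝓕 k s (k - δ)
    omega)
  have heq : ∀ t ∈ (k - δ) ::ₘ s, ex 𝓕 k δ (t ::ₘ s) = ex 𝓕 k δ s := fun t ht =>
    le_antisymm (by have := hcon t ht; omega) (ex_mono 𝓕 hk s hq' t)
  have hlt : kd 𝓕 k δ s < finrank K (Rj K σ (k - δ)) :=
    lt_of_le_of_ne (kd_le 𝓕 hk s) fun h => hq' (full_top 𝓕 hk s h)
  have hlt2 : kd 𝓕 k δ ((k - δ) ::ₘ s) < finrank K (Rj K σ (k - δ)) :=
    lt_of_le_of_ne (kd_le 𝓕 hk _) fun h => hq (full_top 𝓕 hk _ h)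
  have hst : kd 𝓕 k δ ((k - δ) ::ₘ s) = kd 𝓕 k δ s + 1 := by
    have := heq _ (Multiset.mem_cons_self _ _)
    unfold ex at this
    rw [Multiset.count_cons_self] at this
    push_cast at this
    omega
  have hst' : ∀ t ∈ (k - δ) ::ₘ s, t ≠ k - δ → kd 𝓕 k δ (t ::ₘ s) = kd 𝓕 k δ s := by
    intro t ht htj
    have := heq t ht
    unfold ex at this
    rw [Multiset.count_cons_of_ne (Ne.symm htj)] at this
    omega
  apply hq
  obtain ⟨A, hA⟩ := exists_fin ((k - δ) ::ₘ s)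
  rw [← hA]
  obtain ⟨j, hj⟩ := exists_fresh δ A
  obtain ⟨B, hB1, hB2, hB3, hB4⟩ := gen_move 𝓕 (s' := (k - δ) ::ₘ s) (h := (δ, j))
    (fun P A => PP 𝓕 k P (δ, j) A) (by
      intro Θ a a' h1 h2 h3 h4 h5 h6 h7 h8
      by_cases haj : a.1 = k - δ
      · refine exch3 𝓕 (h := (δ, j)) (s := s) hk h1 h2 h3 h4 h5 h6 haj (h7.trans haj) ?_ hst hlt2
        rw [map_insert h2, haj, Multiset.cons_inj_right] at h8
        exact h8
      · refine exch2 𝓕 (h := (δ, j)) (s := s) hk h1 h2 h3 h4 h5 h6 h7 h8 haj (hst' a.1 ?_ haj)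
        rw [← h8]
        exact Multiset.mem_map.2 ⟨a, Finset.mem_insert_self _ _, rfl⟩) A _ A rfl hA hj
  obtain ⟨Ψ, hΨ0, hΨ⟩ := hB4
  have hg : Gen K (fun P : (ℕ × ℕ) × 𝓕.Γ → K => eval P Ψ ≠ 0) := ⟨Ψ, hΨ0, fun _ h => h⟩
  obtain ⟨P, ⟨⟨hP1, hP2⟩, hP3⟩, hP4⟩ := (((hg.and (gen_J 𝓕 k A)).and
    (gen_fm_ne 𝓕 (δ, j))).and (gen_PP2 𝓕 (h := (δ, j)) (s := s) hk hj hA hst hlt)).exists
  refine qv_zero_of 𝓕 hP2 (top_of 𝓕 (h := (δ, j)) hk hj (fun P => PP 𝓕 k P (δ, j) A) Ψ P hP1 ?_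
    ?_ ?_ hP3)
  · intro P' _
    exact PP_le 𝓕 k P' (δ, j) A
  · intro t a w ht
    have h1 := hΨ _ ht
    have h2 := hΨ _ hP1
    beta_reduce at h1 h2 ⊢
    rw [h1, h2]
    refine PP_congr 𝓕 (pa_mq_ne 𝓕 hj _ _ _ _) fun b hb => pa_mq_ne 𝓕 ?_ _ _ _ _
    exact Finset.disjoint_left.1 hB2 hb
  · intro h
    rw [h, finrank_bot] at hP4
    change ((0 : ℕ) : ℤ) = ex 𝓕 k δ _ at hP4
    omega

lemma ex_nonneg {k δ : ℕ} (hk : δ ≤ k) (s : Multiset ℕ) (hq : qv 𝓕 k s ≠ 0) :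
    0 ≤ ex 𝓕 k δ s := by
  induction s using Multiset.induction_on with
  | empty => simp [ex]
  | cons t s ih =>
    have h1 : qv 𝓕 k s ≠ 0 := fun h => hq (by
      have := qv_anti 𝓕 k s t
      omega)
    exact (ih h1).trans (ex_mono 𝓕 hk s h1 t)

end

end K4H38FR
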