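import Mathlib
import Pool.Agent.K4H38.FR.Grow

/-!
Numerical consequences: with an a priori bound of lower order, the excess vanishes.
-/

set_option autoImplicit false
set_option linter.unusedSectionVars false

namespace K4H38FR

open MvPolynomial H350MG Module K4H38FP

noncomputable section

section Numbers

variable {σ : Type} [Fintype σ]

lemma gj_zero [Nonempty σ] : gj σ 0 = 1 := by
  unfold gj
  rw [Nat.choose_zero_right]
  rfl

lemma gj_nonneg (j : ℕ) : 0 ≤ gj σ j := by
  unfold gj
  positivity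

lemma gj_le [Nonempty σ] : ∀ j : ℕ, gj σ j ≤ (Fintype.card σ : ℤ) ^ j := by
  have hc : 0 < Fintype.card σ := Fintype.card_pos
  intro j
  unfold gj
  induction j with
  | zero => simp
  | succ j ih =>
    obtain ⟨N, hN⟩ : ∃ N, Fintype.card σ = N + 1 := ⟨Fintype.card σ - 1, by omega⟩
    rw [hN] at ih ⊢
    have e1 : N + 1 + j - 1 = N + j := by omega
    have e2 : N + 1 + (j + 1) - 1 = N + j + 1 := by omega
    rw [e1] at ih
    rw [e2]
    have h1 := Nat.add_one_mul_choose_eq (N + j) j
    have h2 : (N + j + 1).choose (j + 1) * (j + 1) ≤ ((N + 1) * (N + j).choose j) * (j + 1) := by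
      rw [← h1]
      have h3 : N + j + 1 ≤ (N + 1) * (j + 1) := by nlinarith
      calc (N + j + 1) * (N + j).choose j ≤ ((N + 1) * (j + 1)) * (N + j).choose j :=
            Nat.mul_le_mul_right _ h3
        _ = ((N + 1) * (N + j).choose j) * (j + 1) := by ring
    have h4 := Nat.le_of_mul_le_mul_right h2 (Nat.succ_pos j)
    have h5 : (((N + j + 1).choose (j + 1) : ℕ) : ℤ) ≤ (N + 1 : ℕ) * ((N + j).choose j : ℕ) := by
      exact_mod_cast h4
    refine h5.trans ?_
    rw [pow_succ, mul_comm]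
    exact mul_le_mul_of_nonneg_right ih (by positivity)

lemma E_zero_of [Nonempty σ] : ∀ l : List ℕ, (∀ a ∈ l, 1 ≤ a) → E (gj σ) l 0 = 1 := by
  intro l
  induction l with
  | nil => intro _; exact gj_zero
  | cons a l ih =>
    intro h
    have ha := h a (List.mem_cons_self ..)
    simp only [E]
    rw [if_neg (by omega), sub_zero]
    exact ih fun b hb => h b (List.mem_cons_of_mem _ hb)

/-- the expected value up to the least degree -/
lemma E_low [Nonempty σ] {d0 j : ℕ} (hd0 : 1 ≤ d0) (hj : j ≤ d0) : ∀ l : List ℕ,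
    (∀ a ∈ l, d0 ≤ a) → E (gj σ) l j = gj σ j - (l.count j : ℤ) := by
  intro l
  induction l with
  | nil => intro _; simp [E]
  | cons a l ih =>
    intro h
    have ha := h a (List.mem_cons_self ..)
    have hl : ∀ b ∈ l, d0 ≤ b := fun b hb => h b (List.mem_cons_of_mem _ hb)
    simp only [E]
    rw [ih hl]
    by_cases haj : a ≤ j
    · have e1 : a = j := by omega
      subst e1
      rw [if_pos le_rfl, Nat.sub_self, E_zero_of l fun b hb => by have := hl b hb; omega,
        List.count_cons_self]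
      push_cast
      ring
    · rw [if_neg haj, List.count_cons_of_ne (by omega)]
      ring

lemma E_nonneg_tail {k a : ℕ} {l : List ℕ} (ha : 1 ≤ a)
    (h : ∀ m ≤ k, 0 ≤ E (gj σ) (a :: l) m) : ∀ m ≤ k, 0 ≤ E (gj σ) l m := by
  intro m
  induction m using Nat.strong_induction_on with
  | _ m ih =>
    intro hm
    have h1 := h m hm
    simp only [E] at h1
    by_cases ham : a ≤ m
    · rw [if_pos ham] at h1
      have := ih (m - a) (by omega) (by omega)
      linarith
    · rw [if_neg ham, sub_zero] at h1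
      exact h1

lemma E_le_tail {k a : ℕ} {l : List ℕ} (ha : 1 ≤ a)
    (h : ∀ m ≤ k, 0 ≤ E (gj σ) (a :: l) m) : ∀ m ≤ k, E (gj σ) (a :: l) m ≤ E (gj σ) l m := by
  intro m hm
  have h1 := E_nonneg_tail ha h
  simp only [E]
  split_ifs with ham
  · have := h1 (m - a) (by omega)
    linarith
  · rw [sub_zero]

lemma E_le_gj {k : ℕ} : ∀ l : List ℕ, (∀ a ∈ l, 1 ≤ a) → (∀ m ≤ k, 0 ≤ E (gj σ) l m) →
    ∀ m ≤ k, E (gj σ) l m ≤ gj σ m := by
  intro l
  induction l with
  | nil => intro _ _ m _; exact le_rfl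
  | cons a l ih =>
    intro h1 h2 m hm
    have ha := h1 a (List.mem_cons_self ..)
    exact (E_le_tail ha h2 m hm).trans
      (ih (fun b hb => h1 b (List.mem_cons_of_mem _ hb)) (E_nonneg_tail ha h2) m hm)

/-- adding few forms changes the expected values only a little -/
lemma E_add_few [Nonempty σ] {k d0 : ℕ} (hd0 : 1 ≤ d0) {l : List ℕ} (hl : ∀ a ∈ l, 1 ≤ a)
    {ε η : ℝ} (hη : η ≤ ε)
    (hm : ∀ m ≤ k, ε * (Fintype.card σ : ℝ) ^ m ≤ (E (gj σ) l m : ℝ)) :
    ∀ u : List ℕ, (∀ a ∈ u, d0 ≤ a) → (u.length : ℝ) ≤ η * (Fintype.card σ : ℝ) ^ d0 →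
      ∀ m ≤ k, (ε - η) * (Fintype.card σ : ℝ) ^ m ≤ (E (gj σ) (u ++ l) m : ℝ) := by
  have hc : (1 : ℝ) ≤ Fintype.card σ := by exact_mod_cast (Fintype.card_pos : 0 < Fintype.card σ)
  obtain ⟨N, hN⟩ : ∃ N : ℝ, N = (Fintype.card σ : ℝ) := ⟨_, rfl⟩
  rw [← hN] at hc hm ⊢
  -- the precise bound
  have key : ∀ u : List ℕ, (∀ a ∈ u, d0 ≤ a) → (u.length : ℝ) ≤ η * N ^ d0 →
      ∀ m ≤ k, (E (gj σ) l m : ℝ) - (if d0 ≤ m then (u.length : ℝ) * N ^ (m - d0) else 0) ≤
        (E (gj σ) (u ++ l) m : ℝ) := by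
    intro u
    induction u with
    | nil =>
      intro _ _ m _
      rw [List.nil_append, List.length_nil, Nat.cast_zero, zero_mul]
      split_ifs <;> simp
    | cons t u ih =>
      intro h1 h2 m hmk
      have ht := h1 t (List.mem_cons_self ..)
      have hu : ∀ a ∈ u, d0 ≤ a := fun b hb => h1 b (List.mem_cons_of_mem _ hb)
      rw [List.length_cons] at h2
      push_cast at h2
      have h3 := ih hu (by linarith)
      -- nonnegativity
      have h4 : ∀ m ≤ k, 0 ≤ E (gj σ) (u ++ l) m := by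
        intro m' hm'
        have h5 := h3 m' hm'
        have h6 := hm m' hm'
        have h7 : (0 : ℝ) ≤ (E (gj σ) (u ++ l) m' : ℝ) := by
          refine le_trans ?_ h5
          have hNp : (0 : ℝ) < N ^ m' := by positivity
          split_ifs with hd
          · have h8 : (u.length : ℝ) * N ^ (m' - d0) ≤ η * N ^ m' := by
              calc (u.length : ℝ) * N ^ (m' - d0) ≤ (η * N ^ d0) * N ^ (m' - d0) :=
                    mul_le_mul_of_nonneg_right (by linarith) (by positivity)
                _ = η * N ^ m' := by rw [mul_assoc, ← pow_add, Nat.add_sub_cancel' hd]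
            nlinarith
          · have : 0 ≤ η := by
              by_contra hcon
              push Not at hcon
              have h9 : η * N ^ d0 < 0 := mul_neg_of_neg_of_pos hcon (by positivity)
              have h10 : (0 : ℝ) ≤ u.length := Nat.cast_nonneg _
              linarith
            nlinarith
        exact_mod_cast h7
      have hul : ∀ a ∈ u ++ l, 1 ≤ a := by
        intro a ha
        rw [List.mem_append] at ha
        rcases ha with ha | ha
        · have := hu a ha; omega
        · exact hl a ha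
      have h5 := E_le_gj (u ++ l) hul h4
      have h6 := h3 m hmk
      rw [List.cons_append]
      simp only [E]
      rw [List.length_cons]
      push_cast
      by_cases htm : t ≤ m
      · have hdm : d0 ≤ m := by omega
        have h7 := h5 (m - t) (by omega)
        have h8 : ((E (gj σ) (u ++ l) (m - t) : ℤ) : ℝ) ≤ N ^ (m - d0) := by
          have h9 : ((E (gj σ) (u ++ l) (m - t) : ℤ) : ℝ) ≤ N ^ (m - t) := by
            rw [hN]
            exact_mod_cast h7.trans (gj_le (m - t))
          exact h9.trans (pow_le_pow_right₀ hc (by omega))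
        rw [if_pos hdm] at h6 ⊢
        rw [if_pos htm]
        linarith
      · rw [if_neg htm]
        split_ifs with hdm
        · rw [if_pos hdm] at h6
          have : (0 : ℝ) ≤ N ^ (m - d0) := by positivity
          linarith
        · rw [if_neg hdm] at h6
          linarith
  intro u hu hlen m hmk
  refine le_trans ?_ (key u hu hlen m hmk)
  have h6 := hm m hmk
  have hNp : (0 : ℝ) < N ^ m := by positivity
  split_ifs with hd
  · have h8 : (u.length : ℝ) * N ^ (m - d0) ≤ η * N ^ m := by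
      calc (u.length : ℝ) * N ^ (m - d0) ≤ (η * N ^ d0) * N ^ (m - d0) :=
            mul_le_mul_of_nonneg_right (by linarith) (by positivity)
        _ = η * N ^ m := by rw [mul_assoc, ← pow_add, Nat.add_sub_cancel' hd]
    nlinarith
  · have : 0 ≤ η := by
      by_contra hcon
      push Not at hcon
      have h9 : η * N ^ d0 < 0 := mul_neg_of_neg_of_pos hcon (by positivity)
      have h10 : (0 : ℝ) ≤ u.length := Nat.cast_nonneg _
      linarith
    nlinarith

end Numbers

variable {K : Type} [Field K] [CharZero K] {σ : Type} [Fintype σ] [DecidableEq σ] (𝓕 : Fmy K σ)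

/-- the deviation from the expected value -/
def dv (k : ℕ) (l : List ℕ) : ℤ := (qv 𝓕 k (l : Multiset ℕ) : ℤ) - E (gj σ) l k

variable [Nonempty σ]

lemma qv_big {k t : ℕ} (ht : k < t) (s : Multiset ℕ) : qv 𝓕 k (t ::ₘ s) = qv 𝓕 k s := by
  classical
  obtain ⟨A, rfl⟩ := exists_fin s
  obtain ⟨i, hi⟩ := exists_fresh t A
  obtain ⟨P, hP1, hP2⟩ := ((gen_J 𝓕 k A).and (gen_J 𝓕 k (insert (t, i) A))).exists
  rw [map_insert hi, JA_insert 𝓕 hi] at hP2
  have e1 : Jt (fm 𝓕 P (t, i), (t, i).1) k = (⊥ : Submodule K (MvPolynomial σ K)) := by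
    unfold Jt
    rw [if_neg]
    change ¬ t ≤ k
    omega
  rw [e1, sup_bot_eq] at hP2
  change _ + qv 𝓕 k (t ::ₘ _) = _ at hP2
  omega

/-- the deviation changes by the excess -/
lemma dv_cons {k δ d0 : ℕ} (hd0 : 1 ≤ d0) (hk : δ ≤ k) (hj : k - δ ≤ d0) {l : List ℕ}
    (hl : ∀ a ∈ l, d0 ≤ a) : dv 𝓕 k (δ :: l) = dv 𝓕 k l + ex 𝓕 k δ (l : Multiset ℕ) := by
  have h1 := kd_add 𝓕 hk (l : Multiset ℕ)
  have h2 := E_low (σ := σ) hd0 hj l hl
  have h3 := finrank_Rj' (𝕜 := K) (σ := σ) (k - δ)
  unfold dv ex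
  rw [← Multiset.cons_coe, Multiset.coe_count]
  simp only [E]
  rw [if_pos hk, h2]
  have h4 : (kd 𝓕 k δ (l : Multiset ℕ) : ℤ) + qv 𝓕 k (l : Multiset ℕ) =
      finrank K (Rj K σ (k - δ)) + qv 𝓕 k (δ ::ₘ (l : Multiset ℕ)) := by exact_mod_cast h1
  rw [h3] at h4
  linarith

/-- iterated growth -/
lemma grow_iter {k δ d0 : ℕ} (hk : δ ≤ k) (hj : k - δ ≤ d0) {l : List ℕ}
    (hl : ∀ a ∈ l, d0 ≤ a) (hpos : 0 < ex 𝓕 k δ (l : Multiset ℕ)) : ∀ I : ℕ,
    (∀ u : List ℕ, (∀ a ∈ u, d0 ≤ a) → u.length ≤ I → qv 𝓕 k ((u ++ l : List ℕ) : Multiset ℕ) ≠ 0) →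
    ∃ u : List ℕ, (∀ a ∈ u, d0 ≤ a) ∧ u.length = I ∧
      1 + (I : ℤ) ≤ ex 𝓕 k δ ((u ++ l : List ℕ) : Multiset ℕ) := by
  intro I
  induction I with
  | zero =>
    intro _
    refine ⟨[], by simp, rfl, ?_⟩
    rw [List.nil_append]
    push_cast
    omega
  | succ I ih =>
    intro hq
    obtain ⟨u, hu1, hu2, hu3⟩ := ih fun u h1 h2 => hq u h1 (by omega)
    have hul : ∀ a ∈ u ++ l, d0 ≤ a := by
      intro a ha
      rw [List.mem_append] at ha
      rcases ha with ha | ha
      · exact hu1 a ha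
      · exact hl a ha
    rcases Nat.lt_or_ge (k - δ) d0 with hlt | hge
    · have hns : k - δ ∉ ((u ++ l : List ℕ) : Multiset ℕ) := by
        intro h
        have := hul _ (Multiset.mem_coe.1 h)
        omega
      have hc : ∀ t, t ≠ k - δ → ex 𝓕 k δ (t ::ₘ ((u ++ l : List ℕ) : Multiset ℕ)) =
          (kd 𝓕 k δ (t ::ₘ ((u ++ l : List ℕ) : Multiset ℕ)) : ℤ) := by
        intro t ht
        unfold ex
        rw [Multiset.count_cons_of_ne (Ne.symm ht), Multiset.count_eq_zero.2 hns]
        simp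
      have hc0 : ex 𝓕 k δ ((u ++ l : List ℕ) : Multiset ℕ) =
          (kd 𝓕 k δ ((u ++ l : List ℕ) : Multiset ℕ) : ℤ) := by
        unfold ex
        rw [Multiset.count_eq_zero.2 hns]
        simp
      obtain ⟨t, ht1, ht2⟩ := growA 𝓕 hk hns (by omega) (hq u hu1 (by omega))
      have ht1' := hul t (Multiset.mem_coe.1 ht1)
      refine ⟨t :: u, ?_, by rw [List.length_cons, hu2], ?_⟩
      · intro a ha
        rw [List.mem_cons] at ha
        rcases ha with rfl | ha
        · exact ht1'
        · exact hu1 a ha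
      · rw [List.cons_append, ← Multiset.cons_coe, hc t (by omega)]
        push_cast
        omega
    · have hje : k - δ = d0 := by omega
      obtain ⟨t, ht1, ht2⟩ := growB 𝓕 hk (s := ((u ++ l : List ℕ) : Multiset ℕ)) (by omega) (by
        have := hq ((k - δ) :: u) (by
          intro a ha
          rw [List.mem_cons] at ha
          rcases ha with rfl | ha
          · omega
          · exact hu1 a ha) (by rw [List.length_cons]; omega)
        rwa [List.cons_append, ← Multiset.cons_coe] at this)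
      have ht1' : d0 ≤ t := by
        rw [Multiset.mem_cons] at ht1
        rcases ht1 with rfl | ht1
        · omega
        · exact hul t (Multiset.mem_coe.1 ht1)
      refine ⟨t :: u, ?_, by rw [List.length_cons, hu2], ?_⟩
      · intro a ha
        rw [List.mem_cons] at ha
        rcases ha with rfl | ha
        · exact ht1'
        · exact hu1 a ha
      · rw [List.cons_append, ← Multiset.cons_coe]
        push_cast
        omega

/-- adding forms of degree `δ` many times -/
lemma rep_iter {k δ d0 : ℕ} (hd0 : 1 ≤ d0) (hδ : d0 ≤ δ) (hk : δ ≤ k) (hj : k - δ ≤ d0)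
    {l : List ℕ} (hl : ∀ a ∈ l, d0 ≤ a) {x : ℤ} (hx : x ≤ ex 𝓕 k δ (l : Multiset ℕ)) : ∀ I : ℕ,
    (∀ i ≤ I, qv 𝓕 k ((List.replicate i δ ++ l : List ℕ) : Multiset ℕ) ≠ 0) →
    x ≤ ex 𝓕 k δ ((List.replicate I δ ++ l : List ℕ) : Multiset ℕ) ∧
      dv 𝓕 k l + I * x ≤ dv 𝓕 k (List.replicate I δ ++ l) := by
  intro I
  induction I with
  | zero =>
    intro _
    rw [List.replicate_zero, List.nil_append]
    refine ⟨hx, ?_⟩
    push_cast
    linarith
  | succ I ih =>
    intro hq
    obtain ⟨h1, h2⟩ := ih fun i hi => hq i (by omega)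
    have hul : ∀ a ∈ List.replicate I δ ++ l, d0 ≤ a := by
      intro a ha
      rw [List.mem_append] at ha
      rcases ha with ha | ha
      · rw [List.eq_of_mem_replicate ha]; exact hδ
      · exact hl a ha
    rw [List.replicate_succ, List.cons_append]
    constructor
    · rw [← Multiset.cons_coe]
      exact h1.trans (ex_mono 𝓕 hk _ (hq I (by omega)) δ)
    · rw [dv_cons 𝓕 hd0 hk hj hul]
      push_cast
      linarith

end

end K4H38FR
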