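import Mathlib
import Pool.Agent.K4H38.FR.Num

/-!
The excess vanishes, if there is an a priori bound of lower order.
-/

set_option autoImplicit false
set_option linter.unusedSectionVars false

namespace K4H38FR

open MvPolynomial H350MG Module K4H38FP

noncomputable section

variable {K : Type} [Field K] [CharZero K] {σ : Type} [Fintype σ] [DecidableEq σ] [Nonempty σ]
  (𝓕 : Fmy K σ)

/-- an a priori bound for the deviations -/
def Apr (k : ℕ) (ε C : ℝ) : Prop :=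
  ∀ l : List ℕ, (∀ a ∈ l, 1 ≤ a) →
    (∀ m ≤ k, ε / 4 * (Fintype.card σ : ℝ) ^ m ≤ (E (gj σ) l m : ℝ)) →
    (Fintype.card σ : ℝ) * |(dv 𝓕 k l : ℝ)| ≤ C * (Fintype.card σ : ℝ) ^ k

/-- the number of the variables is large -/
structure Big (N ε C : ℝ) : Prop where
  h1 : 8 / ε ≤ N
  h2 : 4 * C / ε < N
  h3 : 32 * C / ε ^ 2 < N

lemma exists_big (ε C : ℝ) : ∃ n0 : ℕ, 1 ≤ n0 ∧ ∀ n : ℕ, n0 ≤ n → Big (n : ℝ) ε C := by
  obtain ⟨a, ha⟩ := exists_nat_gt (8 / ε)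
  obtain ⟨b, hb⟩ := exists_nat_gt (4 * C / ε)
  obtain ⟨c, hc⟩ := exists_nat_gt (32 * C / ε ^ 2)
  refine ⟨a + b + c + 1, by omega, fun n hn => ?_⟩
  have h : ((a + b + c + 1 : ℕ) : ℝ) ≤ n := by exact_mod_cast hn
  push_cast at h
  have h1 : (0 : ℝ) ≤ a := Nat.cast_nonneg a
  have h2 : (0 : ℝ) ≤ b := Nat.cast_nonneg b
  have h3 : (0 : ℝ) ≤ c := Nat.cast_nonneg c
  exact ⟨by linarith, by linarith, by linarith⟩

lemma qv_ne_of {k : ℕ} {ε C : ℝ} (hε : 0 < ε) (hap : Apr 𝓕 k ε C)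
    (hbig : Big (Fintype.card σ : ℝ) ε C) {l : List ℕ} (hl : ∀ a ∈ l, 1 ≤ a)
    (hm : ∀ m ≤ k, ε / 4 * (Fintype.card σ : ℝ) ^ m ≤ (E (gj σ) l m : ℝ)) :
    qv 𝓕 k (l : Multiset ℕ) ≠ 0 := by
  intro h0
  have h1 := hap l hl hm
  have h2 := hm k le_rfl
  have hc : (1 : ℝ) ≤ Fintype.card σ := by exact_mod_cast (Fintype.card_pos : 0 < Fintype.card σ)
  obtain ⟨N, hN⟩ : ∃ N : ℝ, N = (Fintype.card σ : ℝ) := ⟨_, rfl⟩
  have hb2 := hbig.h2
  rw [← hN] at hc h1 h2 hb2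
  have h3 : (dv 𝓕 k l : ℝ) = -(E (gj σ) l k : ℝ) := by
    unfold dv
    rw [h0]
    push_cast
    ring
  have hNk : (0 : ℝ) < N ^ k := by positivity
  have h4 : 0 < (E (gj σ) l k : ℝ) := lt_of_lt_of_le (by positivity) h2
  rw [h3, abs_neg, abs_of_pos h4] at h1
  have h5 : N * (ε / 4 * N ^ k) ≤ C * N ^ k :=
    (mul_le_mul_of_nonneg_left h2 (by linarith)).trans h1
  have h6 : N * (ε / 4) ≤ C := by
    have : (N * (ε / 4)) * N ^ k ≤ C * N ^ k := by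
      calc (N * (ε / 4)) * N ^ k = N * (ε / 4 * N ^ k) := by ring
        _ ≤ _ := h5
    exact le_of_mul_le_mul_right this hNk
  rw [div_lt_iff₀ hε] at hb2
  linarith

/-- the excess vanishes -/
theorem ex_zero {k δ d0 : ℕ} {ε C : ℝ} (hε : 0 < ε) (hap : Apr 𝓕 k ε C)
    (hbig : Big (Fintype.card σ : ℝ) ε C) (hd0 : 1 ≤ d0) (hδ : d0 ≤ δ) (hk : δ ≤ k)
    (hj : k - δ ≤ d0) {l : List ℕ} (hl : ∀ a ∈ l, d0 ≤ a)
    (hm : ∀ m ≤ k, ε * (Fintype.card σ : ℝ) ^ m ≤ (E (gj σ) l m : ℝ)) :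
    ex 𝓕 k δ (l : Multiset ℕ) = 0 := by
  have hc : (1 : ℝ) ≤ Fintype.card σ := by exact_mod_cast (Fintype.card_pos : 0 < Fintype.card σ)
  have hl1 : ∀ a ∈ l, 1 ≤ a := fun a ha => hd0.trans (hl a ha)
  -- the margins of the first phase
  have hm1 : ∀ u : List ℕ, (∀ a ∈ u, d0 ≤ a) →
      (u.length : ℝ) ≤ ε / 2 * (Fintype.card σ : ℝ) ^ d0 →
      ∀ m ≤ k, ε / 2 * (Fintype.card σ : ℝ) ^ m ≤ (E (gj σ) (u ++ l) m : ℝ) := by
    intro u hu hlen m hmk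
    have := E_add_few (σ := σ) hd0 hl1 (η := ε / 2) (by linarith) hm u hu hlen m hmk
    rwa [show ε - ε / 2 = ε / 2 by ring] at this
  have hul : ∀ u : List ℕ, (∀ a ∈ u, d0 ≤ a) → ∀ a ∈ u ++ l, d0 ≤ a := by
    intro u hu a ha
    rw [List.mem_append] at ha
    rcases ha with ha | ha
    · exact hu a ha
    · exact hl a ha
  have hq1 : ∀ u : List ℕ, (∀ a ∈ u, d0 ≤ a) →
      (u.length : ℝ) ≤ ε / 2 * (Fintype.card σ : ℝ) ^ d0 →
      qv 𝓕 k ((u ++ l : List ℕ) : Multiset ℕ) ≠ 0 := by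
    intro u hu hlen
    refine qv_ne_of 𝓕 hε hap hbig (fun a ha => hd0.trans (hul u hu a ha)) fun m hmk => ?_
    refine le_trans ?_ (hm1 u hu hlen m hmk)
    have : (0 : ℝ) ≤ (Fintype.card σ : ℝ) ^ m := by positivity
    nlinarith
  have hq0 : qv 𝓕 k (l : Multiset ℕ) ≠ 0 := by
    have := hq1 [] (by simp) (by
      rw [List.length_nil, Nat.cast_zero]
      positivity)
    rwa [List.nil_append] at this
  by_contra hne
  have hpos : 0 < ex 𝓕 k δ (l : Multiset ℕ) :=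
    lt_of_le_of_ne (ex_nonneg 𝓕 hk _ hq0) (Ne.symm hne)
  obtain ⟨I, hI⟩ : ∃ I : ℕ, I = ⌊ε / 2 * (Fintype.card σ : ℝ) ^ d0⌋₊ := ⟨_, rfl⟩
  have hI1 : (I : ℝ) ≤ ε / 2 * (Fintype.card σ : ℝ) ^ d0 := by
    rw [hI]; exact Nat.floor_le (by positivity)
  have hI2 : ε / 2 * (Fintype.card σ : ℝ) ^ d0 < (I : ℝ) + 1 := by
    rw [hI]; exact Nat.lt_floor_add_one _
  obtain ⟨u, hu1, hu2, hu3⟩ := grow_iter 𝓕 hk hj hl hpos I fun u h1 h2 =>
    hq1 u h1 (le_trans (by exact_mod_cast h2) hI1)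
  have hmu := hm1 u hu1 (by rw [hu2]; exact hI1)
  obtain ⟨L, hL⟩ : ∃ L, L = u ++ l := ⟨_, rfl⟩
  rw [← hL] at hu3 hmu
  have hLd : ∀ a ∈ L, d0 ≤ a := by rw [hL]; exact hul u hu1
  have hL1 : ∀ a ∈ L, 1 ≤ a := fun a ha => hd0.trans (hLd a ha)
  obtain ⟨N, hN⟩ : ∃ N : ℝ, N = (Fintype.card σ : ℝ) := ⟨_, rfl⟩
  have hb1 := hbig.h1
  have hb3 := hbig.h3
  rw [← hN] at hc hI1 hI2 hb1 hb3
  rw [div_le_iff₀ hε] at hb1
  have hu3' : 1 + (I : ℝ) ≤ (ex 𝓕 k δ (L : Multiset ℕ) : ℝ) := by exact_mod_cast hu3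
  rcases Nat.lt_or_ge (k - δ) d0 with hlt | hge
  · -- the colon space is too small
    have h1 : ex 𝓕 k δ (L : Multiset ℕ) ≤ gj σ (k - δ) := by
      have h2 := kd_le 𝓕 hk (L : Multiset ℕ)
      have h3 := finrank_Rj' (𝕜 := K) (σ := σ) (k - δ)
      unfold ex
      rw [← h3]
      have : (0 : ℤ) ≤ ((L : Multiset ℕ).count (k - δ) : ℤ) := by positivity
      omega
    have h2 : (ex 𝓕 k δ (L : Multiset ℕ) : ℝ) ≤ N ^ (k - δ) := by
      rw [hN]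
      exact_mod_cast h1.trans (gj_le (k - δ))
    have h3 : N ^ (k - δ) ≤ N ^ (d0 - 1) := pow_le_pow_right₀ hc (by omega)
    have h4 : N ^ d0 = N ^ (d0 - 1) * N := by
      rw [← pow_succ]
      congr 1
      omega
    have h5 : (0 : ℝ) < N ^ (d0 - 1) := by positivity
    rw [h4] at hI2
    have h6 : ε / 2 * (N ^ (d0 - 1) * N) < N ^ (d0 - 1) := by linarith
    have h7 : (ε / 2 * N) * N ^ (d0 - 1) < 1 * N ^ (d0 - 1) := by
      calc (ε / 2 * N) * N ^ (d0 - 1) = ε / 2 * (N ^ (d0 - 1) * N) := by ring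
        _ < N ^ (d0 - 1) := h6
        _ = 1 * N ^ (d0 - 1) := by ring
    have h8 := lt_of_mul_lt_mul_right h7 h5.le
    linarith
  · -- the second phase
    obtain ⟨J', hJ⟩ : ∃ J' : ℕ, J' = ⌊ε / 4 * N ^ δ⌋₊ := ⟨_, rfl⟩
    have hJ1 : (J' : ℝ) ≤ ε / 4 * N ^ δ := by
      rw [hJ]; exact Nat.floor_le (by positivity)
    have hJ2 : ε / 4 * N ^ δ < (J' : ℝ) + 1 := by
      rw [hJ]; exact Nat.lt_floor_add_one _
    have hmr : ∀ i ≤ J', ∀ m ≤ k, ε / 4 * (Fintype.card σ : ℝ) ^ m ≤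
        (E (gj σ) (List.replicate i δ ++ L) m : ℝ) := by
      intro i hi m hmk
      have := E_add_few (σ := σ) (d0 := δ) (by omega) hL1 (η := ε / 4) (ε := ε / 2)
        (by linarith) hmu (List.replicate i δ) (fun a ha => (List.eq_of_mem_replicate ha).ge) (by
          rw [List.length_replicate, ← hN]
          exact le_trans (by exact_mod_cast hi) hJ1) m hmk
      rwa [show ε / 2 - ε / 4 = ε / 4 by ring] at this
    have hrl : ∀ i, ∀ a ∈ List.replicate i δ ++ L, 1 ≤ a := by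
      intro i a ha
      rw [List.mem_append] at ha
      rcases ha with ha | ha
      · rw [List.eq_of_mem_replicate ha]; omega
      · exact hL1 a ha
    obtain ⟨_, h2⟩ := rep_iter 𝓕 hd0 hδ hk hj hLd hu3 J' fun i hi =>
      qv_ne_of 𝓕 hε hap hbig (hrl i) (hmr i hi)
    have h3 := hap (List.replicate J' δ ++ L) (hrl J') (hmr J' le_rfl)
    have h4 := hap L hL1 (fun m hmk => by
      refine le_trans ?_ (hmu m hmk)
      have : (0 : ℝ) ≤ (Fintype.card σ : ℝ) ^ m := by positivity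
      nlinarith)
    rw [← hN] at h3 h4
    have h5 : (dv 𝓕 k L : ℝ) + J' * (1 + I) ≤ (dv 𝓕 k (List.replicate J' δ ++ L) : ℝ) := by
      exact_mod_cast h2
    have h6 : -|(dv 𝓕 k L : ℝ)| ≤ (dv 𝓕 k L : ℝ) := neg_abs_le _
    have h7 : (dv 𝓕 k (List.replicate J' δ ++ L) : ℝ) ≤
      |(dv 𝓕 k (List.replicate J' δ ++ L) : ℝ)| := le_abs_self _
    have h8 : (J' : ℝ) * (1 + I) ≤ |(dv 𝓕 k (List.replicate J' δ ++ L) : ℝ)| +
      |(dv 𝓕 k L : ℝ)| := by linarith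
    have h9 : N * ((J' : ℝ) * (1 + I)) ≤ 2 * C * N ^ k := by
      calc N * ((J' : ℝ) * (1 + I)) ≤ N * (|(dv 𝓕 k (List.replicate J' δ ++ L) : ℝ)| +
            |(dv 𝓕 k L : ℝ)|) := mul_le_mul_of_nonneg_left h8 (by linarith)
        _ = N * |(dv 𝓕 k (List.replicate J' δ ++ L) : ℝ)| + N * |(dv 𝓕 k L : ℝ)| := by ring
        _ ≤ 2 * C * N ^ k := by linarith
    have hNδ : N ≤ N ^ δ := by
      calc N = N ^ 1 := (pow_one N).symm
        _ ≤ N ^ δ := pow_le_pow_right₀ hc (by omega)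
    have h10 : ε / 8 * N ^ δ ≤ (J' : ℝ) := by
      have : 1 ≤ ε / 8 * N ^ δ := by nlinarith
      linarith
    have h11 : ε / 2 * N ^ d0 ≤ 1 + (I : ℝ) := by linarith
    have h12 : (ε / 8 * N ^ δ) * (ε / 2 * N ^ d0) ≤ (J' : ℝ) * (1 + I) :=
      mul_le_mul h10 h11 (by positivity) (Nat.cast_nonneg _)
    have h13 : (ε / 8 * N ^ δ) * (ε / 2 * N ^ d0) = ε ^ 2 / 16 * N ^ k := by
      have : N ^ k = N ^ δ * N ^ d0 := by
        rw [← pow_add]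
        congr 1
        omega
      rw [this]
      ring
    rw [h13] at h12
    have hNk : (0 : ℝ) < N ^ k := by positivity
    have h14 : (N * (ε ^ 2 / 16)) * N ^ k ≤ (2 * C) * N ^ k := by
      calc (N * (ε ^ 2 / 16)) * N ^ k = N * (ε ^ 2 / 16 * N ^ k) := by ring
        _ ≤ N * ((J' : ℝ) * (1 + I)) := mul_le_mul_of_nonneg_left h12 (by linarith)
        _ ≤ 2 * C * N ^ k := h9
    have h15 := le_of_mul_le_mul_right h14 hNk
    rw [div_lt_iff₀ (by positivity)] at hb3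
    linarith

lemma margin_tail {k a : ℕ} {ε : ℝ} (hε : 0 < ε) {l : List ℕ} (ha : 1 ≤ a)
    (hm : ∀ m ≤ k, ε * (Fintype.card σ : ℝ) ^ m ≤ (E (gj σ) (a :: l) m : ℝ)) :
    ∀ m ≤ k, ε * (Fintype.card σ : ℝ) ^ m ≤ (E (gj σ) l m : ℝ) := by
  intro m hmk
  refine (hm m hmk).trans ?_
  have h1 : ∀ m ≤ k, 0 ≤ E (gj σ) (a :: l) m := by
    intro m' hm'
    have h2 := hm m' hm'
    have h3 : (0 : ℝ) ≤ (E (gj σ) (a :: l) m' : ℝ) := le_trans (by positivity) h2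
    exact_mod_cast h3
  exact_mod_cast E_le_tail ha h1 m hmk

/-- adding forms of degree at least `k - d0` does not change the deviation -/
theorem dv_append {k d0 : ℕ} {ε C : ℝ} (hε : 0 < ε) (hap : Apr 𝓕 k ε C)
    (hbig : Big (Fintype.card σ : ℝ) ε C) (hd0 : 1 ≤ d0) {l : List ℕ} (hl : ∀ a ∈ l, d0 ≤ a) :
    ∀ u : List ℕ, (∀ a ∈ u, d0 ≤ a ∧ k ≤ a + d0) →
      (∀ m ≤ k, ε * (Fintype.card σ : ℝ) ^ m ≤ (E (gj σ) (u ++ l) m : ℝ)) →
      dv 𝓕 k (u ++ l) = dv 𝓕 k l := by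
  intro u
  induction u with
  | nil => intro _ _; rfl
  | cons a u ih =>
    intro hu hm
    have ha := hu a (List.mem_cons_self ..)
    have hu' : ∀ a ∈ u, d0 ≤ a ∧ k ≤ a + d0 := fun b hb => hu b (List.mem_cons_of_mem _ hb)
    rw [List.cons_append] at hm ⊢
    have hm' := margin_tail (σ := σ) hε (by omega) hm
    rw [← ih hu' hm']
    have hul : ∀ b ∈ u ++ l, d0 ≤ b := by
      intro b hb
      rw [List.mem_append] at hb
      rcases hb with hb | hb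
      · exact (hu' b hb).1
      · exact hl b hb
    rcases Nat.lt_or_ge k a with hka | hka
    · unfold dv
      rw [← Multiset.cons_coe, qv_big 𝓕 hka]
      simp only [E]
      rw [if_neg (by omega), sub_zero]
    · rw [dv_cons 𝓕 hd0 hka (by omega) hul,
        ex_zero 𝓕 hε hap hbig hd0 ha.1 hka (by omega) hul hm', add_zero]

lemma dv_nil (k : ℕ) : dv 𝓕 k [] = 0 := by
  obtain ⟨P, hP⟩ := (gen_J 𝓕 k ∅).exists
  have h1 : JA 𝓕 k P ∅ = ⊥ := by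
    rw [eq_bot_iff, JA_le_iff]
    intro a ha
    exact absurd ha (Finset.notMem_empty a)
  rw [h1, finrank_bot, zero_add] at hP
  have h2 := finrank_Rj' (𝕜 := K) (σ := σ) k
  have h3 : (qv 𝓕 k (([] : List ℕ) : Multiset ℕ) : ℤ) = finrank K (Rj K σ k) := by
    exact_mod_cast hP
  unfold dv
  rw [h3, h2]
  simp [E]

/-- exactness up to twice the least degree -/
theorem dv_exact {k d0 : ℕ} {ε C : ℝ} (hε : 0 < ε) (hap : Apr 𝓕 k ε C)
    (hbig : Big (Fintype.card σ : ℝ) ε C) (hd0 : 1 ≤ d0) (hk : k ≤ 2 * d0) {l : List ℕ}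
    (hl : ∀ a ∈ l, d0 ≤ a)
    (hm : ∀ m ≤ k, ε * (Fintype.card σ : ℝ) ^ m ≤ (E (gj σ) l m : ℝ)) : dv 𝓕 k l = 0 := by
  have h := dv_append 𝓕 hε hap hbig hd0 (l := []) (by simp) l
    (fun a ha => ⟨hl a ha, by have := hl a ha; omega⟩) (by rwa [List.append_nil])
  rw [List.append_nil, dv_nil] at h
  exact h

end

end K4H38FR
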