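import Mathlib
import Pool.Agent.K4H38.FR.Eng
import Pool.Agent.TH130.FP.Pts
import Pool.Agent.K4H38.FP.Fin

/-!
The generic dimensions for the family of the powers of linear forms: apolarity.
-/

set_option autoImplicit false
set_option linter.unusedSectionVars false

namespace K4H38FR

open MvPolynomial H350MG Module K4H38FP

noncomputable section

variable {K : Type} [Field K] [CharZero K] {σ : Type} [Fintype σ] [DecidableEq σ]

/-- forms killed by given powers of given directional derivatives -/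
def KE (k : ℕ) (c : Multiset ((σ → K) × ℕ)) : Submodule K (MvPolynomial σ K) where
  carrier := {F | F ∈ Rj K σ k ∧ ∀ x ∈ c, (D x.1 ^ x.2) F = 0}
  add_mem' := by
    rintro F G ⟨hF, hF'⟩ ⟨hG, hG'⟩
    exact ⟨Submodule.add_mem _ hF hG, fun c hc => by rw [map_add, hF' c hc, hG' c hc, add_zero]⟩
  zero_mem' := ⟨Submodule.zero_mem _, fun c _ => map_zero _⟩
  smul_mem' := by
    rintro a F ⟨hF, hF'⟩
    exact ⟨Submodule.smul_mem _ _ hF, fun c hc => by rw [map_smul, hF' c hc, smul_zero]⟩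

lemma mem_KE {k : ℕ} {c : Multiset ((σ → K) × ℕ)} {F : MvPolynomial σ K} :
    F ∈ KE k c ↔ F ∈ Rj K σ k ∧ ∀ x ∈ c, (D x.1 ^ x.2) F = 0 := Iff.rfl

lemma KE_le (k : ℕ) (c : Multiset ((σ → K) × ℕ)) : KE k c ≤ Rj K σ k := fun _ h => h.1

/-- the pairing on the forms of degree `k` -/
def prk (K : Type) [Field K] [CharZero K] (σ : Type) [Fintype σ] [DecidableEq σ] (k : ℕ) :
    Rj K σ k →ₗ[K] Module.Dual K (Rj K σ k) :=
  (LinearMap.lcomp K K (Rj K σ k).subtype) ∘ₗ prL ∘ₗ (Rj K σ k).subtype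

lemma prk_apply (k : ℕ) (F G : Rj K σ k) : prk K σ k F G = pr (F : MvPolynomial σ K) G := rfl

lemma prk_inj (k : ℕ) : Function.Injective (prk K σ k) := by
  rw [← LinearMap.ker_eq_bot, LinearMap.ker_eq_bot']
  intro F hF
  have h1 : (F : MvPolynomial σ K) = 0 := by
    refine pr_nondeg F.2 fun G hG => ?_
    have := congrArg (fun T : Module.Dual K (Rj K σ k) => T ⟨G, hG⟩) hF
    exact this
  exact Subtype.ext h1

/-- apolarity -/
lemma apol (k : ℕ) (c : Multiset ((σ → K) × ℕ)) :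
    finrank K (KE k c) + finrank K (JM (powF K σ) k c) = finrank K (Rj K σ k) := by
  let e : Rj K σ k ≃ₗ[K] Module.Dual K (Rj K σ k) :=
    LinearEquiv.ofInjectiveOfFinrankEq (prk K σ k) (prk_inj k)
      (Subspace.dual_finrank_eq (K := K) (V := Rj K σ k)).symm
  have he : ∀ F G : Rj K σ k, e F G = pr (F : MvPolynomial σ K) G := fun F G => rfl
  let J' : Submodule K (Rj K σ k) := (JM (powF K σ) k c).comap (Rj K σ k).subtype
  have hJ' : finrank K J' = finrank K (JM (powF K σ) k c) :=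
    LinearEquiv.finrank_eq (Submodule.comapSubtypeEquivOfLe (JM_le (powF K σ) k c))
  let K' : Submodule K (Rj K σ k) := (KE k c).comap (Rj K σ k).subtype
  have hK' : finrank K K' = finrank K (KE k c) :=
    LinearEquiv.finrank_eq (Submodule.comapSubtypeEquivOfLe (KE_le k c))
  have h1 : K' = (J'.dualAnnihilator).comap (e : Rj K σ k →ₗ[K] Module.Dual K (Rj K σ k)) := by
    ext F
    rw [Submodule.mem_comap, Submodule.mem_comap, Submodule.mem_dualAnnihilator]
    constructor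
    · rintro ⟨_, hF⟩ G hG
      change pr (F : MvPolynomial σ K) (G : MvPolynomial σ K) = 0
      have h2 : JM (powF K σ) k c ≤ LinearMap.ker (pr (F : MvPolynomial σ K)) := by
        change (c.map fun x : (σ → K) × ℕ => Jt (lin x.1 ^ x.2, x.2) k).sup ≤ _
        rw [Multiset.sup_le]
        intro N hN
        obtain ⟨x, hx, rfl⟩ := Multiset.mem_map.1 hN
        unfold Jt
        split_ifs with h
        · rintro _ ⟨g, _, rfl⟩
          rw [LinearMap.mem_ker]
          change pr (F : MvPolynomial σ K) (lin x.1 ^ x.2 * g) = 0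
          have h4 : (D x.1 ^ x.2) (F : MvPolynomial σ K) = 0 := hF x hx
          have h5 : pr (0 : MvPolynomial σ K) = 0 := prL.map_zero
          rw [pr_linpow, h4, h5, LinearMap.zero_apply]
        · exact bot_le
      exact h2 hG
    · intro hF
      refine ⟨F.2, fun x hx => ?_⟩
      by_cases hk : x.2 ≤ k
      · refine pr_nondeg (j := k - x.2) (Dpow_hom _ F.2) ?_
        intro g hg
        rw [← pr_linpow]
        have hmem : lin x.1 ^ x.2 * g ∈ JM (powF K σ) k c := by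
          have h3 : Jt (lin x.1 ^ x.2, x.2) k ≤ JM (powF K σ) k c := by
            unfold JM
            exact Multiset.le_sup (Multiset.mem_map.2 ⟨x, hx, rfl⟩)
          refine h3 ?_
          unfold Jt
          rw [if_pos hk]
          exact ⟨g, hg, rfl⟩
        exact hF ⟨_, JM_le (powF K σ) k c hmem⟩ hmem
      · exact Dpow_zero_hom (by omega) F.2
  have h2 : finrank K K' = finrank K J'.dualAnnihilator := by
    rw [h1, Submodule.comap_equiv_eq_map_symm]
    exact LinearEquiv.finrank_map_eq e.symm _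
  have h3 := Subspace.finrank_add_finrank_dualAnnihilator_eq J'
  omega

lemma KS_KE (d : ℕ) (s : Multiset ((σ → K) × ℕ)) :
    KS d s = KE d (s.map fun x => (x.1, d + 1 - x.2)) := by
  ext F
  rw [mem_KS, mem_KE]
  refine and_congr_right fun _ => ⟨?_, ?_⟩
  · intro h x hx
    obtain ⟨y, hy, rfl⟩ := Multiset.mem_map.1 hx
    exact h y hy
  · intro h y hy
    exact h (y.1, d + 1 - y.2) (Multiset.mem_map.2 ⟨y, hy, rfl⟩)

lemma K_KE {r : ℕ} (e : Fin r → ℕ) (P : Fin r × σ → K) (k : ℕ) :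
    H350MG.K (ptList e P) k =
      KE k ((Finset.univ : Finset (Fin r)).val.map fun i => ((fun j => P (i, j)), e i)) := by
  ext F
  rw [mem_K, mem_KE]
  refine and_congr_right fun _ => ⟨?_, ?_⟩
  · intro h c hc
    obtain ⟨i, _, rfl⟩ := Multiset.mem_map.1 hc
    exact h _ (mem_ptList (e := e) P i)
  · intro h c hc
    obtain ⟨i, rfl⟩ := exists_of_mem_ptList hc
    exact h _ (Multiset.mem_map.2 ⟨i, Finset.mem_univ i, rfl⟩)

lemma lift_map {V : Type} (f : ℕ → ℕ) (s : Multiset ℕ) : ∀ c : Multiset (V × ℕ),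
    c.map Prod.snd = s.map f → ∃ c0 : Multiset (V × ℕ), c0.map Prod.snd = s ∧
      c0.map (fun x => (x.1, f x.2)) = c := by
  induction s using Multiset.induction_on with
  | empty =>
    intro c hc
    rw [Multiset.map_zero, Multiset.map_eq_zero] at hc
    subst hc
    exact ⟨0, rfl, rfl⟩
  | cons m s ih =>
    intro c hc
    rw [Multiset.map_cons] at hc
    have hmem : f m ∈ c.map Prod.snd := by rw [hc]; exact Multiset.mem_cons_self _ _
    obtain ⟨x, hx, hxa⟩ := Multiset.mem_map.1 hmem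
    obtain ⟨c', rfl⟩ := Multiset.exists_cons_of_mem hx
    rw [Multiset.map_cons, hxa, Multiset.cons_inj_right] at hc
    obtain ⟨c0, h1, h2⟩ := ih c' hc
    refine ⟨(x.1, m) ::ₘ c0, by rw [Multiset.map_cons, h1], ?_⟩
    rw [Multiset.map_cons, h2, ← hxa]

/-- the generic dimensions of spaces of forms with given multiplicities -/
theorem hv_qv (d : ℕ) (s : Multiset ℕ) :
    hv K σ d s = qv (powF K σ) d (s.map fun m => d + 1 - m) := by
  refine le_antisymm ?_ ?_
  · have hs := qv_spec (powF K σ) d (s.map fun m => d + 1 - m)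
    change ∃ c : Multiset ((σ → K) × ℕ), _ at hs
    obtain ⟨c, hc, hc2⟩ := hs
    obtain ⟨c0, h1, h2⟩ := lift_map (V := σ → K) (fun m => d + 1 - m) s c hc
    refine (hv_le c0 h1).trans ?_
    rw [← hc2, KS_KE, h2]
    have := apol (σ := σ) d c
    omega
  · obtain ⟨c, hc, hc2⟩ := hv_spec (K := K) (σ := σ) d s
    rw [← hc2, KS_KE]
    have h1 := apol d (c.map fun x => (x.1, d + 1 - x.2))
    have h2 : qv (powF K σ) d (s.map fun m => d + 1 - m) ≤ _ :=
      qv_le (powF K σ) (c.map fun x => (x.1, d + 1 - x.2)) (by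
        rw [← hc, Multiset.map_map, Multiset.map_map]
        rfl)
    refine h2.trans ?_
    rw [← h1]
    exact (Nat.add_sub_cancel_right ..).le

/-- powers of generic linear forms have the generic dimension -/
lemma linkP {r : ℕ} (e : Fin r → ℕ) (k : ℕ) : ∃ Φ : MvPolynomial (Fin r × σ) K, Φ ≠ 0 ∧
    ∀ P, eval P Φ ≠ 0 → finrank K (H350MG.K (ptList e P) k) =
      qv (powF K σ) k ((List.ofFn e : List ℕ) : Multiset ℕ) := by
  have hty : ((Finset.univ : Finset (Fin r)).val.map e) = ((List.ofFn e : List ℕ) : Multiset ℕ) := by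
    rw [Fin.univ_def, List.ofFn_eq_map]
    rfl
  have hs := qv_spec (powF K σ) k ((List.ofFn e : List ℕ) : Multiset ℕ)
  change ∃ c : Multiset ((σ → K) × ℕ), _ at hs
  obtain ⟨c, hc, hc2⟩ := hs
  rw [← hty] at hc
  have : Inhabited (σ → K) := ⟨0⟩
  obtain ⟨f, hf⟩ := exists_lift' (V := σ → K) Finset.univ e c hc
  obtain ⟨Φ, h0, hΦ⟩ := generic_K (𝕜 := K) (σ := σ) e k (fun x => f x.1 x.2)
  refine ⟨Φ, h0, fun P hP => le_antisymm ?_ ?_⟩
  · have h1 := hΦ P hP
    refine h1.trans ?_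
    rw [K_KE, ← hc2]
    have h2 := apol k ((Finset.univ : Finset (Fin r)).val.map fun i =>
      ((fun j => (fun x : Fin r × σ => f x.1 x.2) (i, j)), e i))
    have h3 : ((Finset.univ : Finset (Fin r)).val.map fun i =>
      ((fun j => (fun x : Fin r × σ => f x.1 x.2) (i, j)), e i)) = c := hf
    rw [h3] at h2 ⊢
    omega
  · rw [K_KE]
    have h2 := apol k ((Finset.univ : Finset (Fin r)).val.map fun i => ((fun j => P (i, j)), e i))
    have h3 := qv_le (powF K σ) (k := k) (s := ((List.ofFn e : List ℕ) : Multiset ℕ))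
      ((Finset.univ : Finset (Fin r)).val.map fun i => ((fun j => P (i, j)), e i)) (by
        rw [← hty, Multiset.map_map]
        rfl)
    refine h3.trans ?_
    rw [← h2]
    exact (Nat.add_sub_cancel_right ..).le

/-- the a priori bound for powers of linear forms in `n + 1` variables -/
theorem apr_pow (D : ℕ) (ε : ℝ) (hε : 0 < ε) : ∃ (C : ℝ) (n0 : ℕ), 1 ≤ n0 ∧
    ∀ (K : Type) [Field K] [CharZero K] (n : ℕ), n0 ≤ n → ∀ k ≤ D,
      Apr (powF K (Fin (n + 1))) k ε C ∧
      ∀ l : List ℕ, (∀ a ∈ l, 1 ≤ a) →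
        (∃ j ≤ k, (E (gj (Fin (n + 1))) l j : ℝ) ≤ -(ε / 4 * (n : ℝ) ^ j)) →
        qv (powF K (Fin (n + 1))) k (l : Multiset ℕ) = 0 := by
  obtain ⟨C, n0, hC0, hn0, H⟩ := Pool.Agent.TH130.FP.main_K_succ D (ε / 4) (by positivity)
  refine ⟨2 * C, n0, hn0, ?_⟩
  intro K _ _ n hn k hk
  have key : ∀ l : List ℕ, (∀ a ∈ l, 1 ≤ a) →
      ((∀ j ≤ k, ε / 4 * (n : ℝ) ^ j ≤ (E (gj (Fin (n + 1))) l j : ℝ)) →
        (n : ℝ) * |((qv (powF K (Fin (n + 1))) k (l : Multiset ℕ) : ℕ) : ℝ) -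
          (E (gj (Fin (n + 1))) l k : ℝ)| ≤ C * (n : ℝ) ^ k) ∧
      ((∃ j ≤ k, (E (gj (Fin (n + 1))) l j : ℝ) ≤ -(ε / 4 * (n : ℝ) ^ j)) →
        qv (powF K (Fin (n + 1))) k (l : Multiset ℕ) = 0) := by
    intro l hl
    have hofn : List.ofFn l.get = l := List.ofFn_get l
    obtain ⟨h, ⟨Φ1, hΦ10, hΦ1⟩, hb⟩ := H K n hn l.length l.get (fun i => hl _ (List.get_mem l i))
    obtain ⟨Φ2, hΦ20, hΦ2⟩ := linkP (K := K) (σ := Fin (n + 1)) l.get k
    obtain ⟨c, hc⟩ : ∃ c, eval c (Φ1 * Φ2) ≠ 0 := by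
      by_contra hcon
      push Not at hcon
      exact mul_ne_zero hΦ10 hΦ20 (MvPolynomial.funext fun c => by rw [hcon c, map_zero])
    rw [map_mul] at hc
    have h1 := hΦ1 c (left_ne_zero_of_mul hc) k (Finset.mem_range.2 (by omega))
    have h2 := hΦ2 c (right_ne_zero_of_mul hc)
    rw [h1, hofn] at h2
    obtain ⟨_, h4, h5⟩ := hb k hk
    rw [h2, hofn] at h4 h5
    exact ⟨h4, h5⟩
  refine ⟨?_, fun l hl => (key l hl).2⟩
  intro l hl hm
  have hnR : (1 : ℝ) ≤ n := by exact_mod_cast hn0.trans hn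
  have hcard : (Fintype.card (Fin (n + 1)) : ℝ) = (n : ℝ) + 1 := by
    rw [Fintype.card_fin]; push_cast; ring
  rw [hcard] at hm ⊢
  have hpow : ∀ j, (n : ℝ) ^ j ≤ ((n : ℝ) + 1) ^ j := fun j =>
    pow_le_pow_left₀ (by linarith) (by linarith) j
  have h1 := (key l hl).1 fun j hj =>
    (mul_le_mul_of_nonneg_left (hpow j) (by positivity)).trans (hm j hj)
  have h2 : (dv (powF K (Fin (n + 1))) k l : ℝ) =
      ((qv (powF K (Fin (n + 1))) k (l : Multiset ℕ) : ℕ) : ℝ) -
        (E (gj (Fin (n + 1))) l k : ℝ) := by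
    unfold dv
    push_cast
    ring
  rw [h2]
  calc ((n : ℝ) + 1) * |((qv (powF K (Fin (n + 1))) k (l : Multiset ℕ) : ℕ) : ℝ) -
          (E (gj (Fin (n + 1))) l k : ℝ)|
      ≤ (2 * n) * |((qv (powF K (Fin (n + 1))) k (l : Multiset ℕ) : ℕ) : ℝ) -
          (E (gj (Fin (n + 1))) l k : ℝ)| :=
        mul_le_mul_of_nonneg_right (by linarith) (abs_nonneg _)
    _ = 2 * (n * |((qv (powF K (Fin (n + 1))) k (l : Multiset ℕ) : ℕ) : ℝ) -
          (E (gj (Fin (n + 1))) l k : ℝ)|) := by ring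
    _ ≤ 2 * (C * (n : ℝ) ^ k) := mul_le_mul_of_nonneg_left h1 (by norm_num)
    _ ≤ 2 * (C * ((n : ℝ) + 1) ^ k) := by
        refine mul_le_mul_of_nonneg_left (mul_le_mul_of_nonneg_left (hpow k) hC0) (by norm_num)
    _ = 2 * C * ((n : ℝ) + 1) ^ k := by ring

end

end K4H38FR
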