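import Mathlib
import Pool.Agent.K4H38.FR.LinkP

/-!
Explicit expected values for powers of linear forms in degrees at most twice the least exponent.
-/

set_option autoImplicit false
set_option linter.unusedSectionVars false

namespace K4H38FR

open MvPolynomial H350MG Module K4H38FP

noncomputable section

section Explicit

variable {σ : Type} [Fintype σ] [Nonempty σ]

/-- the expected value in degree `k` at most twice the least degree -/
lemma E_two {d0 k : ℕ} (hd0 : 1 ≤ d0) (hk : k ≤ 2 * d0) : ∀ l : List ℕ, (∀ a ∈ l, d0 ≤ a) →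
    E (gj σ) l k = gj σ k - (l.map fun a => if a ≤ k then gj σ (k - a) else 0).sum +
      (((l.countP fun a => 2 * a = k).choose 2 : ℕ) : ℤ) := by
  intro l
  induction l with
  | nil => intro _; simp [E]
  | cons a l ih =>
    intro h
    have ha := h a (List.mem_cons_self ..)
    have hl : ∀ b ∈ l, d0 ≤ b := fun b hb => h b (List.mem_cons_of_mem _ hb)
    simp only [E]
    rw [ih hl, List.map_cons, List.sum_cons]
    by_cases hak : a ≤ k
    · rw [if_pos hak, if_pos hak, E_low (σ := σ) hd0 (by omega : k - a ≤ d0) l hl]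
      by_cases h2 : 2 * a = k
      · have e1 : k - a = a := by omega
        have e2 : l.count (k - a) = l.countP fun a => 2 * a = k := by
          rw [e1, List.count]
          refine List.countP_congr fun b _ => ?_
          simp only [beq_iff_eq, decide_eq_true_eq]
          omega
        rw [e2, List.countP_cons_of_pos (by simpa using h2)]
        have e3 : ((l.countP fun a => 2 * a = k) + 1).choose 2 =
            (l.countP fun a => 2 * a = k) + (l.countP fun a => 2 * a = k).choose 2 := by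
          rw [Nat.choose_succ_succ' _ 1, Nat.choose_one_right]
        rw [e3]
        push_cast
        ring
      · have e2 : l.count (k - a) = 0 := by
          rw [List.count_eq_zero]
          intro hmem
          have := hl _ hmem
          omega
        rw [e2, List.countP_cons_of_neg (by simpa using h2)]
        push_cast
        ring
    · rw [if_neg hak, if_neg hak, List.countP_cons_of_neg (by
        simp only [decide_eq_true_eq]
        omega)]
      ring

end Explicit

section Margins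

lemma pow_le_choose (n k : ℕ) : (n : ℝ) ^ k ≤ (k.factorial : ℝ) * ((n + k).choose n : ℝ) := by
  have h1 : n ^ k ≤ k.factorial * (n + k).choose k := by
    rw [← Nat.descFactorial_eq_factorial_mul_choose]
    refine (Nat.pow_le_pow_left (by omega) k).trans (Nat.pow_sub_le_descFactorial (n + k) k)
  have h2 : (n + k).choose n = (n + k).choose k := Nat.choose_symm_add
  rw [h2]
  exact_mod_cast h1

/-- the ratio of two binomial coefficients is monotone -/
lemma ratio_step (n e k : ℕ) (h : e ≤ k) :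
    (n + (k + 1)).choose n * (n + k - e).choose n ≤
      (n + k).choose n * (n + (k + 1) - e).choose n := by
  obtain ⟨a, rfl⟩ : ∃ a, k = e + a := ⟨k - e, by omega⟩
  have e1 : n + (e + a) - e = n + a := by omega
  have e2 : n + (e + a + 1) - e = n + (a + 1) := by omega
  rw [e1, e2]
  have key : ∀ b, (n + (b + 1)).choose n * (b + 1) = (n + b).choose n * (n + b + 1) := by
    intro b
    have h1 := Nat.add_one_mul_choose_eq (n + b) b
    have h2 : (n + (b + 1)).choose n = (n + b + 1).choose (b + 1) :=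
      Nat.choose_symm_add (a := n) (b := b + 1)
    have h3 : (n + b).choose n = (n + b).choose b := Nat.choose_symm_add
    rw [h2, h3, ← h1]; ring
  have h1 := key (e + a)
  have h2 := key a
  have hpos : 0 < (e + a + 1) * (a + 1) := by positivity
  refine Nat.le_of_mul_le_mul_right ?_ hpos
  calc (n + (e + a + 1)).choose n * (n + a).choose n * ((e + a + 1) * (a + 1))
      = ((n + (e + a + 1)).choose n * (e + a + 1)) * (n + a).choose n * (a + 1) := by ring
    _ = (n + (e + a)).choose n * (n + a).choose n * ((n + (e + a) + 1) * (a + 1)) := by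
        rw [h1]; ring
    _ ≤ (n + (e + a)).choose n * (n + a).choose n * ((n + a + 1) * (e + a + 1)) := by
        refine Nat.mul_le_mul_left _ ?_
        nlinarith [Nat.zero_le (n * e)]
    _ = (n + (e + a)).choose n * ((n + a).choose n * (n + a + 1)) * (e + a + 1) := by ring
    _ = (n + (e + a)).choose n * (n + (a + 1)).choose n * ((e + a + 1) * (a + 1)) := by
        rw [← h2]; ring

/-- the ratio at `k` is at least the ratio at `2 e - 1` -/
lemma ratio_mono (n e k : ℕ) (h1 : e ≤ k) (h2 : k + 1 ≤ 2 * e) :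
    (n + (2 * e - 1)).choose n * (n + k - e).choose n ≤
      (n + k).choose n * (n + (2 * e - 1) - e).choose n := by
  obtain ⟨j, hj⟩ : ∃ j, 2 * e - 1 = k + j := ⟨2 * e - 1 - k, by omega⟩
  rw [hj]
  clear h2 hj
  induction j with
  | zero => simp
  | succ j ih =>
    have h3 := ratio_step n e (k + j) (by omega)
    have hpos : 0 < (n + (k + j) - e).choose n := Nat.choose_pos (by omega)
    refine Nat.le_of_mul_le_mul_right ?_ hpos
    have e1 : n + (k + (j + 1)) = n + (k + j + 1) := by omega
    rw [e1]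
    calc (n + (k + j + 1)).choose n * (n + k - e).choose n * (n + (k + j) - e).choose n
        = ((n + (k + j + 1)).choose n * (n + (k + j) - e).choose n) * (n + k - e).choose n := by
          ring
      _ ≤ ((n + (k + j)).choose n * (n + (k + j + 1) - e).choose n) * (n + k - e).choose n :=
          Nat.mul_le_mul_right _ h3
      _ = ((n + (k + j)).choose n * (n + k - e).choose n) * (n + (k + j + 1) - e).choose n := by
          ring
      _ ≤ ((n + k).choose n * (n + (k + j) - e).choose n) * (n + (k + j + 1) - e).choose n :=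
          Nat.mul_le_mul_right _ ih
      _ = (n + k).choose n * (n + (k + j + 1) - e).choose n * (n + (k + j) - e).choose n := by
          ring

/-- `C(2e, e) C(n + 2e, n) ≤ θ C(n + e, n) ^ 2` with `θ` close to one -/
lemma choose_sq (n e : ℕ) (hn : 1 ≤ n) : ((2 * e).choose e : ℝ) * ((n + 2 * e).choose n : ℝ) ≤
    (1 + (e : ℝ) / n) ^ e * ((n + e).choose n : ℝ) ^ 2 := by
  have hnR : (0 : ℝ) < n := by exact_mod_cast hn
  -- C(n+2e, 2e) C(2e, e) = C(n+2e, e) C(n+e, e)
  have h1 : (n + 2 * e).choose (2 * e) * (2 * e).choose e =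
      (n + 2 * e).choose e * (n + 2 * e - e).choose (2 * e - e) :=
    Nat.choose_mul (by omega)
  have e1 : n + 2 * e - e = n + e := by omega
  have e2 : 2 * e - e = e := by omega
  rw [e1, e2] at h1
  have e3 : (n + 2 * e).choose n = (n + 2 * e).choose (2 * e) := Nat.choose_symm_add
  have e4 : (n + e).choose n = (n + e).choose e := Nat.choose_symm_add
  -- C(n+2e, e) ≤ (1 + e/n)^e C(n+e, e)
  have h2 : ((n + 2 * e).choose e : ℝ) ≤ (1 + (e : ℝ) / n) ^ e * ((n + e).choose e : ℝ) := by
    have h3 : (e.factorial : ℝ) * ((n + 2 * e).choose e : ℝ) =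
        ∏ i ∈ Finset.range e, (((n + 2 * e : ℕ) : ℝ) - i) := by
      have h4 : ((n + 2 * e).descFactorial e : ℝ) =
          ((e.factorial * (n + 2 * e).choose e : ℕ) : ℝ) := by
        rw [Nat.descFactorial_eq_factorial_mul_choose]
      push_cast at h4
      rw [← h4, Nat.descFactorial_eq_prod_range, Nat.cast_prod]
      refine Finset.prod_congr rfl fun i hi => ?_
      rw [Finset.mem_range] at hi
      rw [Nat.cast_sub (by omega)]
    have h3' : (e.factorial : ℝ) * ((n + e).choose e : ℝ) =
        ∏ i ∈ Finset.range e, (((n + e : ℕ) : ℝ) - i) := by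
      have h4 : ((n + e).descFactorial e : ℝ) =
          ((e.factorial * (n + e).choose e : ℕ) : ℝ) := by
        rw [Nat.descFactorial_eq_factorial_mul_choose]
      push_cast at h4
      rw [← h4, Nat.descFactorial_eq_prod_range, Nat.cast_prod]
      refine Finset.prod_congr rfl fun i hi => ?_
      rw [Finset.mem_range] at hi
      rw [Nat.cast_sub (by omega)]
    have hf : (0 : ℝ) < e.factorial := by exact_mod_cast Nat.factorial_pos e
    refine le_of_mul_le_mul_left ?_ hf
    calc (e.factorial : ℝ) * ((n + 2 * e).choose e : ℝ)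
        = ∏ i ∈ Finset.range e, (((n + 2 * e : ℕ) : ℝ) - i) := h3
      _ ≤ ∏ i ∈ Finset.range e, ((1 + (e : ℝ) / n) * (((n + e : ℕ) : ℝ) - i)) := by
          refine Finset.prod_le_prod (fun i hi => ?_) (fun i hi => ?_)
          · rw [Finset.mem_range] at hi
            have : (i : ℝ) ≤ e := by exact_mod_cast hi.le
            push_cast
            linarith
          · rw [Finset.mem_range] at hi
            have h5 : (i : ℝ) ≤ e := by exact_mod_cast hi.le
            push_cast
            have h6 : (e : ℝ) / n * ((n : ℝ) + e - i) ≥ e := by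
              rw [ge_iff_le, div_mul_eq_mul_div, le_div_iff₀ hnR]
              have : (0 : ℝ) ≤ e := Nat.cast_nonneg e
              nlinarith
            linarith
      _ = (1 + (e : ℝ) / n) ^ e * ∏ i ∈ Finset.range e, (((n + e : ℕ) : ℝ) - i) := by
          rw [Finset.prod_mul_distrib, Finset.prod_const, Finset.card_range]
      _ = (e.factorial : ℝ) * ((1 + (e : ℝ) / n) ^ e * ((n + e).choose e : ℝ)) := by
          rw [← h3']; ring
  rw [e3, e4]
  have h1' : ((n + 2 * e).choose (2 * e) : ℝ) * ((2 * e).choose e : ℝ) =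
      ((n + 2 * e).choose e : ℝ) * ((n + e).choose e : ℝ) := by exact_mod_cast h1
  have hc : (0 : ℝ) ≤ ((n + e).choose e : ℝ) := Nat.cast_nonneg _
  calc ((2 * e).choose e : ℝ) * ((n + 2 * e).choose (2 * e) : ℝ)
      = ((n + 2 * e).choose e : ℝ) * ((n + e).choose e : ℝ) := by rw [← h1']; ring
    _ ≤ ((1 + (e : ℝ) / n) ^ e * ((n + e).choose e : ℝ)) * ((n + e).choose e : ℝ) :=
        mul_le_mul_of_nonneg_right h2 hc
    _ = (1 + (e : ℝ) / n) ^ e * ((n + e).choose e : ℝ) ^ 2 := by ring

/-- for large `n` the factor is close to one -/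
lemma exists_theta (e : ℕ) : ∃ n1 : ℕ, 1 ≤ n1 ∧ ∀ n : ℕ, n1 ≤ n →
    (1 + (e : ℝ) / n) ^ (e + 1) ≤ 21 / 20 := by
  have h1 : Filter.Tendsto (fun n : ℕ => (1 + (e : ℝ) / n) ^ (e + 1)) Filter.atTop
      (nhds ((1 + 0) ^ (e + 1))) := by
    refine Filter.Tendsto.pow ?_ _
    exact tendsto_const_nhds.add (tendsto_const_div_atTop_nhds_zero_nat (e : ℝ))
  have h2 : ∀ᶠ n : ℕ in Filter.atTop, (1 + (e : ℝ) / n) ^ (e + 1) < 21 / 20 := by
    refine h1.eventually (gt_mem_nhds ?_)
    norm_num
  obtain ⟨n1, hn1⟩ := Filter.eventually_atTop.1 h2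
  exact ⟨n1 + 1, by omega, fun n hn => (hn1 n (by omega)).le⟩

lemma E_rep {e k : ℕ} (he : 1 ≤ e) (hk : k ≤ 2 * e) (n r : ℕ) :
    E (gj (Fin (n + 1))) (List.replicate r e) k = ((n + k).choose n : ℤ) -
      (if e ≤ k then (r : ℤ) * ((n + (k - e)).choose n : ℤ) else 0) +
      (if 2 * e = k then ((r.choose 2 : ℕ) : ℤ) else 0) := by
  rw [E_two he hk (List.replicate r e) (fun a ha => (List.eq_of_mem_replicate ha).ge),
    List.map_replicate, List.sum_replicate, Pool.Agent.TH130.FP.gj_fin,
    Pool.Agent.TH130.FP.gj_fin]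
  congr 1
  · split_ifs with h
    · simp
    · simp
  · split_ifs with h
    · rw [List.countP_replicate, if_pos (by simpa using h)]
    · rw [List.countP_replicate, if_neg (by simpa using h)]
      simp

/-- the margins for `r` forms of degree `e` in degrees at most `2 e` -/
theorem marg (e : ℕ) (he : 2 ≤ e) (ε : ℝ) (hε : 0 < ε) : ∃ ε₁ : ℝ, 0 < ε₁ ∧ ∃ n1 : ℕ, 1 ≤ n1 ∧
    ∀ n : ℕ, n1 ≤ n → (∀ r : ℕ,
      (r ≤ (n + e).choose n → (r : ℝ) * ((n + e).choose n : ℝ) - (r.choose 2 : ℝ) ≤
          ((n + 2 * e).choose n : ℝ) - ε * (n : ℝ) ^ (2 * e) →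
        ∀ k ≤ 2 * e, ε₁ * ((n : ℝ) + 1) ^ k ≤
          (E (gj (Fin (n + 1))) (List.replicate r e) k : ℝ)) ∧
      (((n + 2 * e).choose n : ℝ) + ε * (n : ℝ) ^ (2 * e) ≤
          (r : ℝ) * ((n + e).choose n : ℝ) - (r.choose 2 : ℝ) →
        (E (gj (Fin (n + 1))) (List.replicate r e) (2 * e) : ℝ) ≤
          -(ε₁ / 4 * (n : ℝ) ^ (2 * e)))) ∧
      (E (gj (Fin (n + 1))) (List.replicate ((n + e).choose n) e) (2 * e) : ℝ) ≤
          -(ε₁ / 4 * (n : ℝ) ^ (2 * e)) := by
  obtain ⟨n1, hn1, hθ⟩ := exists_theta e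
  have hfac : (0 : ℝ) < ((2 * e).factorial : ℝ) := by exact_mod_cast Nat.factorial_pos _
  have hfac1 : (0 : ℝ) < (e.factorial : ℝ) := by exact_mod_cast Nat.factorial_pos _
  have h2e : (0 : ℝ) < 2 ^ (2 * e) := by positivity
  obtain ⟨ε₁, hε₁⟩ : ∃ ε₁ : ℝ, ε₁ = min (ε / 2 ^ (2 * e))
    (min (1 / (3 * (2 * e).factorial * 2 ^ (2 * e))) (1 / (e.factorial : ℝ) ^ 2)) := ⟨_, rfl⟩
  have hpos : 0 < ε₁ := by
    rw [hε₁]
    refine lt_min (by positivity) (lt_min (by positivity) (by positivity))
  have hle1 : ε₁ * 2 ^ (2 * e) ≤ ε := by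
    have : ε₁ ≤ ε / 2 ^ (2 * e) := by rw [hε₁]; exact min_le_left _ _
    rwa [le_div_iff₀ h2e] at this
  have hle2 : ε₁ * (3 * (2 * e).factorial * 2 ^ (2 * e)) ≤ 1 := by
    have : ε₁ ≤ 1 / (3 * (2 * e).factorial * 2 ^ (2 * e)) := by
      rw [hε₁]; exact (min_le_right _ _).trans (min_le_left _ _)
    rwa [le_div_iff₀ (by positivity)] at this
  have hle3 : ε₁ * (e.factorial : ℝ) ^ 2 ≤ 1 := by
    have : ε₁ ≤ 1 / (e.factorial : ℝ) ^ 2 := by
      rw [hε₁]; exact (min_le_right _ _).trans (min_le_right _ _)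
    rwa [le_div_iff₀ (by positivity)] at this
  refine ⟨ε₁, hpos, n1, hn1, fun n hn => ?_⟩
  have hnR : (1 : ℝ) ≤ n := by exact_mod_cast hn1.trans hn
  have hn0 : (0 : ℝ) < n := by linarith
  have hθn := hθ n hn
  have hbase : (1 : ℝ) ≤ 1 + (e : ℝ) / n := by
    have : (0 : ℝ) ≤ (e : ℝ) / n := by positivity
    linarith
  have hθ1 : (1 + (e : ℝ) / n) ^ e ≤ 21 / 20 :=
    (pow_le_pow_right₀ hbase (Nat.le_succ e)).trans hθn
  have hθ2 : 1 + (e : ℝ) / n ≤ 21 / 20 := by
    calc 1 + (e : ℝ) / n = (1 + (e : ℝ) / n) ^ 1 := (pow_one _).symm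
      _ ≤ (1 + (e : ℝ) / n) ^ (e + 1) := pow_le_pow_right₀ hbase (by omega)
      _ ≤ 21 / 20 := hθn
  obtain ⟨N, hN⟩ : ∃ N : ℝ, N = ((n + e).choose n : ℝ) := ⟨_, rfl⟩
  obtain ⟨Dd, hD⟩ : ∃ Dd : ℝ, Dd = ((n + 2 * e).choose n : ℝ) := ⟨_, rfl⟩
  have hNpos : 0 < N := by
    rw [hN]; exact_mod_cast Nat.choose_pos (by omega)
  have hDpos : 0 < Dd := by
    rw [hD]; exact_mod_cast Nat.choose_pos (by omega)
  -- 6 D ≤ 21/20 N^2
  have hDN : 6 * Dd ≤ 21 / 20 * N ^ 2 := by
    have h1 := choose_sq n e (hn1.trans hn)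
    rw [← hN, ← hD] at h1
    have h2 : (6 : ℝ) ≤ ((2 * e).choose e : ℝ) := by
      have h3 : 6 ≤ (2 * e).choose e := by
        have h4 : ∀ j, 6 ≤ (2 * (j + 2)).choose (j + 2) := by
          intro j
          induction j with
          | zero => decide
          | succ j ih =>
            refine ih.trans ?_
            have h5 : (2 * (j + 2)).choose (j + 2) ≤ (2 * (j + 2) + 1).choose (j + 2) :=
              Nat.choose_le_choose _ (by omega)
            have h6 : (2 * (j + 2) + 1).choose (j + 2) ≤ (2 * (j + 1 + 2)).choose (j + 1 + 2) := by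
              have h7 : 2 * (j + 1 + 2) = (2 * (j + 2) + 1) + 1 := by ring
              rw [h7, show j + 1 + 2 = (j + 2) + 1 by ring, Nat.choose_succ_succ']
              exact Nat.le_add_right _ _
            exact h5.trans h6
        obtain ⟨j, rfl⟩ : ∃ j, e = j + 2 := ⟨e - 2, by omega⟩
        exact h4 j
      exact_mod_cast h3
    calc 6 * Dd ≤ ((2 * e).choose e : ℝ) * Dd := mul_le_mul_of_nonneg_right h2 hDpos.le
      _ ≤ (1 + (e : ℝ) / n) ^ e * N ^ 2 := h1
      _ ≤ 21 / 20 * N ^ 2 := mul_le_mul_of_nonneg_right hθ1 (by positivity)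
  have hNlow : (n : ℝ) ^ e ≤ (e.factorial : ℝ) * N := by
    rw [hN]; exact pow_le_choose n e
  have hch2 : ∀ r : ℕ, (r.choose 2 : ℝ) = (r : ℝ) * ((r : ℝ) - 1) / 2 := fun r =>
    Nat.cast_choose_two ℝ r
  have hEtop : ∀ r : ℕ, (E (gj (Fin (n + 1))) (List.replicate r e) (2 * e) : ℝ) =
      Dd - (r : ℝ) * N + (r.choose 2 : ℝ) := by
    intro r
    rw [E_rep (by omega) le_rfl, if_pos (by omega), if_pos rfl, show 2 * e - e = e by omega, hN, hD]
    push_cast
    ring
  refine ⟨fun r => ⟨fun hr hm k hk => ?_, fun hm => ?_⟩, ?_⟩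
  · -- the margins
    have hn1p : ∀ j ≤ 2 * e, ((n : ℝ) + 1) ^ j ≤ 2 ^ (2 * e) * (n : ℝ) ^ j := by
      intro j hj
      calc ((n : ℝ) + 1) ^ j ≤ (2 * (n : ℝ)) ^ j := pow_le_pow_left₀ (by linarith) (by linarith) j
        _ = 2 ^ j * (n : ℝ) ^ j := mul_pow _ _ _
        _ ≤ 2 ^ (2 * e) * (n : ℝ) ^ j :=
          mul_le_mul_of_nonneg_right (pow_le_pow_right₀ (by norm_num) hj) (by positivity)
    rcases hk.eq_or_lt with rfl | hk'
    · rw [hEtop]
      have h1 : ε₁ * ((n : ℝ) + 1) ^ (2 * e) ≤ ε * (n : ℝ) ^ (2 * e) := by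
        calc ε₁ * ((n : ℝ) + 1) ^ (2 * e) ≤ ε₁ * (2 ^ (2 * e) * (n : ℝ) ^ (2 * e)) :=
              mul_le_mul_of_nonneg_left (hn1p _ le_rfl) hpos.le
          _ = (ε₁ * 2 ^ (2 * e)) * (n : ℝ) ^ (2 * e) := by ring
          _ ≤ ε * (n : ℝ) ^ (2 * e) := mul_le_mul_of_nonneg_right hle1 (by positivity)
      rw [← hN, ← hD] at hm
      linarith
    · -- lower degrees
      have hlow : ε₁ * ((n : ℝ) + 1) ^ k ≤ 1 / 3 * ((n + k).choose n : ℝ) := by
        have h1 := pow_le_choose n k
        have h2 : (k.factorial : ℝ) ≤ ((2 * e).factorial : ℝ) := by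
          exact_mod_cast Nat.factorial_le hk
        have hc : (0 : ℝ) ≤ ((n + k).choose n : ℝ) := Nat.cast_nonneg _
        calc ε₁ * ((n : ℝ) + 1) ^ k ≤ ε₁ * (2 ^ (2 * e) * (n : ℝ) ^ k) :=
              mul_le_mul_of_nonneg_left (hn1p _ hk) hpos.le
          _ ≤ ε₁ * (2 ^ (2 * e) * (((2 * e).factorial : ℝ) * ((n + k).choose n : ℝ))) := by
              refine mul_le_mul_of_nonneg_left (mul_le_mul_of_nonneg_left ?_ h2e.le) hpos.le
              exact h1.trans (mul_le_mul_of_nonneg_right h2 hc)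
          _ = (ε₁ * (3 * (2 * e).factorial * 2 ^ (2 * e))) * (1 / 3 * ((n + k).choose n : ℝ)) := by
              ring
          _ ≤ 1 * (1 / 3 * ((n + k).choose n : ℝ)) :=
              mul_le_mul_of_nonneg_right hle2 (by positivity)
          _ = 1 / 3 * ((n + k).choose n : ℝ) := one_mul _
      refine hlow.trans ?_
      rw [E_rep (by omega) hk, if_neg (by omega : ¬ 2 * e = k), add_zero]
      by_cases hek : e ≤ k
      · rw [if_pos hek]
        -- r C(n + e - 1, n) ≤ 2/3 C(n + 2e - 1, n)
        obtain ⟨A, hA⟩ : ∃ A : ℝ, A = ((n + (2 * e - 1)).choose n : ℝ) := ⟨_, rfl⟩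
        obtain ⟨B, hB⟩ : ∃ B : ℝ, B = ((n + (2 * e - 1) - e).choose n : ℝ) := ⟨_, rfl⟩
        have hBpos : 0 < B := by
          rw [hB]; exact_mod_cast Nat.choose_pos (by omega)
        have hApos : 0 < A := by
          rw [hA]; exact_mod_cast Nat.choose_pos (by omega)
        have heR : (2 : ℝ) ≤ e := by exact_mod_cast he
        -- D (2e) = A (n + 2e), N e = B (n + e)
        have hDA : Dd * (2 * e) = A * (n + 2 * e) := by
          rw [hD, hA]
          obtain ⟨q, hq⟩ : ∃ q, 2 * e = q + 1 := ⟨2 * e - 1, by omega⟩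
          have h1 := Nat.add_one_mul_choose_eq (n + q) q
          have h2 : (n + (q + 1)).choose n = (n + q + 1).choose (q + 1) :=
            Nat.choose_symm_add (a := n) (b := q + 1)
          have h3 : (n + q).choose n = (n + q).choose q := Nat.choose_symm_add
          have h4 : (n + 2 * e).choose n * (2 * e) = (n + (2 * e - 1)).choose n * (n + 2 * e) := by
            rw [hq, Nat.add_sub_cancel, h2, h3, ← h1]
            ring
          exact_mod_cast h4
        have hNB : N * e = B * (n + e) := by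
          rw [hN, hB]
          obtain ⟨q, hq⟩ : ∃ q, e = q + 1 := ⟨e - 1, by omega⟩
          have h1 := Nat.add_one_mul_choose_eq (n + q) q
          have h2 : (n + (q + 1)).choose n = (n + q + 1).choose (q + 1) :=
            Nat.choose_symm_add (a := n) (b := q + 1)
          have h3 : (n + q).choose n = (n + q).choose q := Nat.choose_symm_add
          have h5 : n + (2 * e - 1) - e = n + q := by omega
          have h4 : (n + e).choose n * e = (n + (2 * e - 1) - e).choose n * (n + e) := by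
            rw [h5, hq, h2, h3, ← h1]
            ring
          exact_mod_cast h4
        have hrN : (r : ℝ) ≤ N := by rw [hN]; exact_mod_cast hr
        have hr0 : (0 : ℝ) ≤ r := Nat.cast_nonneg r
        -- r (2 N - r) ≤ 2 D
        have hq1 : (r : ℝ) * (2 * N - r) ≤ 2 * Dd := by
          rw [← hN, ← hD, hch2 r] at hm
          have : 0 < ε * (n : ℝ) ^ (2 * e) := by positivity
          nlinarith
        have hq2 : (r : ℝ) * N ≤ 2 * Dd := by nlinarith
        have hq3 : (r : ℝ) ≤ 7 / 20 * N := by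
          have : (r : ℝ) * N ≤ 7 / 20 * N * N := by nlinarith
          exact le_of_mul_le_mul_right this hNpos
        have hq4 : (r : ℝ) * N * (33 / 20) ≤ 2 * Dd := by nlinarith
        have hq5 : (r : ℝ) * B ≤ 2 / 3 * A := by
          -- multiply by (n + e)
          have hne : (0 : ℝ) < (n : ℝ) + e := by linarith
          have hne2 : (n : ℝ) + 2 * e ≤ 21 / 20 * ((n : ℝ) + e) := by
            have h6 : (e : ℝ) ≤ 1 / 20 * n := by
              have h7 : (e : ℝ) / n ≤ 1 / 20 := by linarith
              rwa [div_le_iff₀ hn0] at h7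
            nlinarith
          have h8 : (r : ℝ) * B * ((n : ℝ) + e) ≤ 2 / 3 * A * ((n : ℝ) + e) := by
            have h9 : (r : ℝ) * B * ((n : ℝ) + e) = (r : ℝ) * N * e := by
              rw [mul_assoc, ← hNB]; ring
            have h10 : (r : ℝ) * N * e * (33 / 20) ≤ A * (n + 2 * e) := by
              rw [← hDA]; nlinarith
            rw [h9]
            nlinarith
          exact le_of_mul_le_mul_right h8 hne
        -- pass to k
        have hrat := ratio_mono n e k hek (by omega)
        have hrat' : A * ((n + k - e).choose n : ℝ) ≤ ((n + k).choose n : ℝ) * B := by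
          rw [hA, hB]; exact_mod_cast hrat
        have e1 : n + (k - e) = n + k - e := by omega
        rw [e1]
        push_cast
        have hck : (0 : ℝ) ≤ ((n + k - e).choose n : ℝ) := Nat.cast_nonneg _
        have h11 : (r : ℝ) * ((n + k - e).choose n : ℝ) ≤ 2 / 3 * ((n + k).choose n : ℝ) := by
          have h12 : (r : ℝ) * ((n + k - e).choose n : ℝ) * B ≤
              2 / 3 * ((n + k).choose n : ℝ) * B := by
            calc (r : ℝ) * ((n + k - e).choose n : ℝ) * B
                = (r * B) * ((n + k - e).choose n : ℝ) := by ring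
              _ ≤ (2 / 3 * A) * ((n + k - e).choose n : ℝ) := mul_le_mul_of_nonneg_right hq5 hck
              _ = 2 / 3 * (A * ((n + k - e).choose n : ℝ)) := by ring
              _ ≤ 2 / 3 * (((n + k).choose n : ℝ) * B) :=
                  mul_le_mul_of_nonneg_left hrat' (by norm_num)
              _ = 2 / 3 * ((n + k).choose n : ℝ) * B := by ring
          exact le_of_mul_le_mul_right h12 hBpos
        linarith
      · rw [if_neg hek]
        push_cast
        have hc : (0 : ℝ) ≤ ((n + k).choose n : ℝ) := Nat.cast_nonneg _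
        linarith
  · rw [hEtop]
    rw [← hN, ← hD] at hm
    have h1 : ε₁ / 4 ≤ ε := by
      have h2 : (1 : ℝ) ≤ 2 ^ (2 * e) := one_le_pow₀ (by norm_num)
      nlinarith
    have h3 : ε₁ / 4 * (n : ℝ) ^ (2 * e) ≤ ε * (n : ℝ) ^ (2 * e) :=
      mul_le_mul_of_nonneg_right h1 (by positivity)
    linarith
  · rw [hEtop]
    have h1 : (((n + e).choose n : ℕ) : ℝ) = N := hN.symm
    rw [hch2, h1]
    have h2 : (n : ℝ) ^ (2 * e) ≤ ((e.factorial : ℝ) * N) ^ 2 := by
      rw [mul_comm 2 e, pow_mul]
      exact pow_le_pow_left₀ (by positivity) hNlow 2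
    have h3 : ε₁ / 4 * (n : ℝ) ^ (2 * e) ≤ 1 / 4 * N ^ 2 := by
      calc ε₁ / 4 * (n : ℝ) ^ (2 * e) ≤ ε₁ / 4 * ((e.factorial : ℝ) * N) ^ 2 :=
            mul_le_mul_of_nonneg_left h2 (by positivity)
        _ = (ε₁ * (e.factorial : ℝ) ^ 2) * (1 / 4 * N ^ 2) := by ring
        _ ≤ 1 * (1 / 4 * N ^ 2) := mul_le_mul_of_nonneg_right hle3 (by positivity)
        _ = 1 / 4 * N ^ 2 := one_mul _
    nlinarith

end Margins

end

end K4H38FR
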